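import Pool.Agent.W536.RDefs

/-!
# Algebraic and transcendental classes under algebraic operations
-/

open CategoryTheory AlgebraicGeometry

universe u v w

namespace Pool.Agent.W536.RR

open Pool.Agent.H914 Pool.Agent.H914.VarClass Pool.Agent.H914.VarClass.Obj
  Pool.Agent.H914.WeilCohomology Pool.Agent.H281R3.HT

variable {k : Type u} [Field k] {𝒱 : VarClass k} {ops : CycleOps 𝒱}
  {W : WeilCohomology.{u, v} ops} {X Y Z : 𝒱.Obj}

lemma algSpan_induction {p : W.H Y → Prop} (h0 : p 0) (hadd : ∀ a b, p a → p b → p (a + b))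
    (hsmul : ∀ (t : W.K) a, p a → p (t • a))
    (h : ∀ (j : ℕ) (z : Y.Cycles), Y.IsCyc j z → p (W.cl Y z)) {a : W.H Y}
    (ha : a ∈ algSpan W Y) : p a := by
  induction ha using Submodule.span_induction with
  | mem x hx =>
    obtain ⟨j, z, hz, rfl⟩ := Set.mem_iUnion.1 hx
    exact h j z hz
  | zero => exact h0
  | add x y _ _ hx hy => exact hadd x y hx hy
  | smul t x _ hx => exact hsmul t x hx

lemma cl_mem_algSpan {j : ℕ} {z : Y.Cycles} (hz : Y.IsCyc j z) : W.cl Y z ∈ algSpan W Y :=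
  Submodule.subset_span (Set.mem_iUnion.2 ⟨j, z, hz, rfl⟩)

lemma one_mem_algSpan : (1 : W.H Y) ∈ algSpan W Y := by
  rw [← W.cl_fund Y]
  exact cl_mem_algSpan Y.V.fundCycle_mem

lemma algSpan_mul {a b : W.H Y} (ha : a ∈ algSpan W Y) (hb : b ∈ algSpan W Y) :
    a * b ∈ algSpan W Y := by
  refine algSpan_induction (p := fun a => a * b ∈ algSpan W Y) ?_ ?_ ?_ ?_ ha
  · rw [zero_mul]; exact Submodule.zero_mem _
  · intro x y hx hy; rw [add_mul]; exact Submodule.add_mem _ hx hy
  · intro t x hx; rw [smul_mul_assoc]; exact Submodule.smul_mem _ _ hx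
  · intro j z hz
    refine algSpan_induction (p := fun b => W.cl Y z * b ∈ algSpan W Y) ?_ ?_ ?_ ?_ hb
    · rw [mul_zero]; exact Submodule.zero_mem _
    · intro x y hx hy; rw [mul_add]; exact Submodule.add_mem _ hx hy
    · intro t x hx; rw [mul_smul_comm]; exact Submodule.smul_mem _ _ hx
    · intro i w hw
      rw [← W.cl_mul]
      exact cl_mem_algSpan (ops.mul_mem hz hw)

lemma algSpan_map (g : X ⟶ Y) {a : W.H Y} (ha : a ∈ algSpan W Y) : W.map g a ∈ algSpan W X := by
  refine algSpan_induction (p := fun a => W.map g a ∈ algSpan W X) ?_ ?_ ?_ ?_ ha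
  · rw [map_zero]; exact Submodule.zero_mem _
  · intro x y hx hy; rw [map_add]; exact Submodule.add_mem _ hx hy
  · intro t x hx; rw [map_smul]; exact Submodule.smul_mem _ _ hx
  · intro j z hz
    rw [← W.cl_pull]
    exact cl_mem_algSpan (ops.pull_mem g hz)

lemma algSpan_push (g : X ⟶ Y) {a : W.H X} (ha : a ∈ algSpan W X) :
    W.push g a ∈ algSpan W Y := by
  refine algSpan_induction (p := fun a => W.push g a ∈ algSpan W Y) ?_ ?_ ?_ ?_ ha
  · rw [map_zero]; exact Submodule.zero_mem _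
  · intro x y hx hy; rw [map_add]; exact Submodule.add_mem _ hx hy
  · intro t x hx; rw [map_smul]; exact Submodule.smul_mem _ _ hx
  · intro j z hz
    by_cases h : X.dim ≤ j + Y.dim
    · rw [← W.cl_push]
      exact cl_mem_algSpan (ops.push_mem g hz (q := j + Y.dim - X.dim) (by omega))
    · have h1 := W.push_mem g (W.cl_mem hz)
      rw [grZ_of_neg (by push_cast; omega)] at h1
      rw [(Submodule.mem_bot _).1 h1]
      exact Submodule.zero_mem _

lemma algSpan_comm {a : W.H Y} (ha : a ∈ algSpan W Y) (b : W.H Y) : a * b = b * a := by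
  refine algSpan_induction (p := fun a => a * b = b * a) ?_ ?_ ?_ ?_ ha
  · rw [mul_zero, zero_mul]
  · intro x y hx hy; rw [mul_add, add_mul, hx, hy]
  · intro t x hx; rw [mul_smul_comm, smul_mul_assoc, hx]
  · intro j z hz
    exact W.even_comm (W.cl_mem hz) b

lemma mem_transc {a : W.H Y} :
    a ∈ transcendental W Y ↔ ∀ b ∈ algSpan W Y, W.tr Y (a * b) = 0 := by
  rw [mem_trans]
  constructor
  · intro h b hb
    refine algSpan_induction (p := fun b => W.tr Y (a * b) = 0) ?_ ?_ ?_ ?_ hb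
    · rw [mul_zero, map_zero]
    · intro x y hx hy; rw [mul_add, map_add, hx, hy, add_zero]
    · intro t x hx; rw [mul_smul_comm, map_smul, hx, smul_zero]
    · intro j z hz
      exact h j _ ⟨z, hz, rfl⟩
  · intro h j c hc
    exact h c (Submodule.subset_span (Set.mem_iUnion.2 ⟨j, hc⟩))

/-- The linear combinations of algebraic classes which are numerically trivial. -/
def numZ (W : WeilCohomology.{u, v} ops) (Y : 𝒱.Obj) : Submodule W.K (W.H Y) :=
  algSpan W Y ⊓ transcendental W Y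

lemma numZ_mul {a b : W.H Y} (ha : a ∈ numZ W Y) (hb : b ∈ algSpan W Y) : a * b ∈ numZ W Y := by
  refine ⟨algSpan_mul ha.1 hb, mem_transc.2 fun c hc => ?_⟩
  rw [mul_assoc]
  exact mem_transc.1 ha.2 _ (algSpan_mul hb hc)

lemma numZ_mul' {a b : W.H Y} (ha : a ∈ numZ W Y) (hb : b ∈ algSpan W Y) : b * a ∈ numZ W Y := by
  rw [algSpan_comm hb]
  exact numZ_mul ha hb

lemma numZ_map (g : X ⟶ Y) {a : W.H Y} (ha : a ∈ numZ W Y) : W.map g a ∈ numZ W X := by
  refine ⟨algSpan_map g ha.1, mem_transc.2 fun c hc => ?_⟩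
  rw [← algSpan_comm hc, ← W.tr_push, algSpan_comm (algSpan_push g hc)]
  exact mem_transc.1 ha.2 _ (algSpan_push g hc)

lemma numZ_push (g : X ⟶ Y) {a : W.H X} (ha : a ∈ numZ W X) : W.push g a ∈ numZ W Y := by
  refine ⟨algSpan_push g ha.1, mem_transc.2 fun c hc => ?_⟩
  rw [W.tr_push]
  exact mem_transc.1 ha.2 _ (algSpan_map g hc)

/-- If there are no numerically trivial combinations of algebraic classes, then `D` holds. -/
lemma homEqNum_of_numZ (h : ∀ a ∈ numZ W Y, a = 0) : HomEqNum W Y := by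
  intro j hj z hz hnum
  refine h _ ⟨cl_mem_algSpan hz, mem_transc.2 fun c hc => ?_⟩
  refine algSpan_induction (p := fun c => W.tr Y (W.cl Y z * c) = 0) ?_ ?_ ?_ ?_ hc
  · rw [mul_zero, map_zero]
  · intro x y hx hy; rw [mul_add, map_add, hx, hy, add_zero]
  · intro t x hx; rw [mul_smul_comm, map_smul, hx, smul_zero]
  · intro i w hw
    by_cases hi : i = Y.dim - j
    · subst hi
      have h1 := ops.mul_mem hz hw
      rw [show j + (Y.dim - j) = Y.dim by omega] at h1
      rw [← W.cl_mul, W.tr_cl h1, hnum w hw, Rat.cast_zero]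
    · exact W.tr_eq_zero (W.mul_mem (W.cl_mem hz) (W.cl_mem hw)) (by omega)

lemma mul_push' (f : X ⟶ Y) (a : W.H Y) (b : W.H X) :
    a * W.push f b = W.push f (W.map f a * b) := by
  refine gr_induction (W.isInternal Y) (p := fun a => a * W.push f b =
    W.push f (W.map f a * b)) ?_ ?_ a
  swap
  · intro a a' ha ha'
    rw [add_mul, map_add, add_mul, map_add, ha, ha']
  intro i a ha
  refine gr_induction (W.isInternal X) (p := fun b => a * W.push f b =
    W.push f (W.map f a * b)) ?_ ?_ b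
  swap
  · intro b b' hb hb'
    rw [map_add, mul_add, mul_add, map_add, hb, hb']
  intro j b hb
  have h1 := W.push_mem f hb
  rw [W.comm (W.map_mem f ha) hb, map_smul, W.push_mul]
  by_cases hneg : (j : ℤ) + 2 * ((Y.dim : ℤ) - X.dim) < 0
  · rw [grZ_of_neg hneg] at h1
    rw [(Submodule.mem_bot _).1 h1, mul_zero, zero_mul, smul_zero]
  · obtain ⟨m, hm⟩ := Int.eq_ofNat_of_zero_le (not_lt.1 hneg)
    rw [hm, grZ_natCast] at h1
    rw [W.comm ha h1]
    congr 1
    have h2 : ((-1 : W.K) ^ m) = (-1 : W.K) ^ j := by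
      rcases Nat.even_or_odd j with h | h
      · rw [h.neg_one_pow, Even.neg_one_pow]
        obtain ⟨r, hr⟩ := h
        exact ⟨(r + Y.dim - X.dim : ℤ).toNat, by omega⟩
      · rw [h.neg_one_pow, Odd.neg_one_pow]
        obtain ⟨r, hr⟩ := h
        exact ⟨(r + Y.dim - X.dim : ℤ).toNat, by omega⟩
    rw [mul_comm i m, mul_comm i j, pow_mul, pow_mul, h2]

/-- Push-forward followed by pull-back. -/
lemma exists_map_push (g : Z ⟶ Y) (h : X ⟶ Y) : ∃ γ ∈ algSpan W (X.prod Z),
    ∀ a, W.map g (W.push h a) = W.push (snd X Z) (γ * W.map (fst X Z) a) := by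
  -- the graph of `h` on `X × Y` and the transposed graph of `g` on `Y × Z`
  have hc : W.push (Obj.lift (𝟙 X) h) 1 ∈ algSpan W (X.prod Y) :=
    algSpan_push _ one_mem_algSpan
  have hd : W.push (Obj.lift g (𝟙 Z)) 1 ∈ algSpan W (Y.prod Z) :=
    algSpan_push _ one_mem_algSpan
  refine ⟨W.push (p13 X Y Z) (W.map (p12 X Y Z) (W.push (Obj.lift (𝟙 X) h) 1) *
    W.map (p23 X Y Z) (W.push (Obj.lift g (𝟙 Z)) 1)),
    algSpan_push _ (algSpan_mul (algSpan_map _ hc) (algSpan_map _ hd)), fun a => ?_⟩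
  have e1 : ∀ a, W.corr (W.push (Obj.lift (𝟙 X) h) 1) a = W.push h a := by
    intro a
    rw [corr_apply, ← W.push_mul, ← W.push_comp, ← W.map_comp, Obj.lift_fst, Obj.lift_snd,
      W.map_id, one_mul]
  have e2 : ∀ a, W.corr (W.push (Obj.lift g (𝟙 Z)) 1) a = W.map g a := by
    intro a
    rw [corr_apply, ← W.push_mul, ← W.push_comp, ← W.map_comp, Obj.lift_fst, Obj.lift_snd,
      W.push_id, one_mul]
  have hd' : W.push (Obj.lift g (𝟙 Z)) 1 ∈ W.gr (Y.prod Z) (2 * Y.dim) := by
    have h1 := W.push_mem (Obj.lift g (𝟙 Z)) (W.one_mem Z)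
    rw [dim_prod] at h1
    rwa [show ((0 : ℕ) : ℤ) + 2 * (((Y.dim + Z.dim : ℕ) : ℤ) - (Z.dim : ℤ)) =
      ((2 * Y.dim : ℕ) : ℤ) by push_cast; ring, grZ_natCast] at h1
  have h1 := congrArg (fun F => F a) (W.corr_comp (W.push (Obj.lift (𝟙 X) h) 1) hd')
  simp only [LinearMap.comp_apply] at h1
  rw [e1, e2] at h1
  rw [← h1, corr_apply]

section Conj

variable (S : Conjugation W)

lemma conj_zero : S.σ Y 0 = 0 := by
  have h := (S.isConjugation Y).add 0 0
  rw [add_zero] at h
  exact left_eq_add.1 h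

lemma conj_one : S.σ Y 1 = 1 := by
  rw [← W.cl_fund Y]
  exact S.cl Y _

lemma conj_algSpan {a : W.H Y} (ha : a ∈ algSpan W Y) : S.σ Y a ∈ algSpan W Y := by
  refine algSpan_induction (p := fun a => S.σ Y a ∈ algSpan W Y) ?_ ?_ ?_ ?_ ha
  · rw [conj_zero]; exact Submodule.zero_mem _
  · intro x y hx hy; rw [(S.isConjugation Y).add]; exact Submodule.add_mem _ hx hy
  · intro t x hx; rw [(S.isConjugation Y).smul]; exact Submodule.smul_mem _ _ hx
  · intro j z hz
    rw [S.cl]
    exact cl_mem_algSpan hz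

/-- The orientation is compatible with a conjugation. -/
lemma conj_tr (a : W.H Y) : W.tr Y (S.σ Y a) = S.τ (W.tr Y a) := by
  by_cases h1 : (1 : W.H Y) = 0
  · have h2 : ∀ b : W.H Y, b = 0 := fun b => by rw [← one_mul b, h1, zero_mul]
    rw [h2 (S.σ Y a), h2 a, map_zero, map_zero]
  · have e1 := S.push (snd Y Y) (W.map (fst Y Y) a)
    rw [← S.map (fst Y Y) a] at e1
    rw [W.push_snd', W.push_snd', (S.isConjugation Y).smul, conj_one, ← sub_eq_zero,
      ← sub_smul] at e1
    exact sub_eq_zero.1 ((smul_eq_zero.1 e1).resolve_right h1)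

lemma conj_numZ {a : W.H Y} (ha : a ∈ numZ W Y) : S.σ Y a ∈ numZ W Y := by
  refine ⟨conj_algSpan S ha.1, mem_transc.2 fun c hc => ?_⟩
  refine algSpan_induction (p := fun c => W.tr Y (S.σ Y a * c) = 0) ?_ ?_ ?_ ?_ hc
  · rw [mul_zero, map_zero]
  · intro x y hx hy; rw [mul_add, map_add, hx, hy, add_zero]
  · intro t x hx; rw [mul_smul_comm, map_smul, hx, smul_zero]
  · intro i w hw
    rw [← S.cl Y w, ← (S.isConjugation Y).mul, conj_tr,
      mem_transc.1 ha.2 _ (cl_mem_algSpan hw), map_zero]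

end Conj

end Pool.Agent.W536.RR
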