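import Mathlib

/-!
# The fundamental group of a curve, and fixed classes: definitions
-/

universe u v

namespace Pool.Agent.W536.Fix

section Group

variable {G : Type*} [Group G] [TopologicalSpace G] [IsTopologicalGroup G]

/-- For every open subgroup `V` of `G`, the only class in the topological abelianization of
`V ∩ π` which is fixed by the conjugations with the elements of `V ∩ D` is the trivial one. -/
def NoFixedClasses (π D : Subgroup G) : Prop :=
  ∀ V : Subgroup G, IsOpen (V : Set G) → ∀ u ∈ V ⊓ π,
    (∀ σ ∈ V ⊓ D, σ * u * σ⁻¹ * u⁻¹ ∈ (⁅V ⊓ π, V ⊓ π⁆ : Subgroup G).topologicalClosure) →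
    u ∈ (⁅V ⊓ π, V ⊓ π⁆ : Subgroup G).topologicalClosure

end Group

section Field

variable {F : Type u} [Field F]

/-- The homomorphism from a valuation ring of `F` to a valuation ring of `E` above it. -/
def restrictTo {E : Type v} [Field E] [Algebra F E] (w : ValuationSubring E)
    (v : ValuationSubring F) (h : ∀ a, a ∈ v ↔ algebraMap F E a ∈ w) : v →+* w :=
  (algebraMap F E).restrict v w fun a ha => (h a).1 ha

/-- The extension `E` of the field `F` is unramified over the valuation rings in `S`: for every
valuation ring `w` of `E` whose intersection with `F` is a member `v` of `S` the ring `w` is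
(formally) unramified over `v`. -/
def IsUnramifiedOver (S : Set (ValuationSubring F)) (E : Type v) [Field E] [Algebra F E] : Prop :=
  ∀ w : ValuationSubring E, ∀ v ∈ S, ∀ h : ∀ a, a ∈ v ↔ algebraMap F E a ∈ w,
    (restrictTo w v h).FormallyUnramified

/-- The extension `E` of `F` is a finite Galois extension which is unramified over the valuation
rings in `S`. -/
structure IsUnramifiedGalois (S : Set (ValuationSubring F)) (E : Type v) [Field E]
    [Algebra F E] : Prop where
  finite : FiniteDimensional F E
  galois : IsGalois F E
  unramified : IsUnramifiedOver S E

/-- The field `M` is the maximal extension of `F` which is unramified over the valuation rings in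
`S`: it is a Galois extension, all its finite subextensions which are Galois over `F` are
unramified, and every finite unramified Galois extension of `F` can be embedded into `M`. -/
structure IsMaxUnramified (S : Set (ValuationSubring F)) (M : Type v) [Field M]
    [Algebra F M] : Prop where
  galois : IsGalois F M
  sub : ∀ E : IntermediateField F M, FiniteDimensional F E → IsGalois F E →
    IsUnramifiedOver S E
  embeds : ∀ (E : Type v) [Field E] [Algebra F E], IsUnramifiedGalois S E →
    Nonempty (E →ₐ[F] M)

/-- The elements of the Galois group of `M` over `F` which fix all elements of `M` which are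
algebraic over `K`. -/
def geometricPart (K : Type*) (F : Type u) (M : Type v) [Field K] [Field F] [Field M]
    [Algebra F M] [Algebra K M] : Subgroup (M ≃ₐ[F] M) where
  carrier := {g | ∀ a : M, IsAlgebraic K a → g a = a}
  mul_mem' := by
    intro g h hg hh a ha
    change g (h a) = a
    rw [hh a ha, hg a ha]
  one_mem' := fun _ _ => rfl
  inv_mem' := by
    intro g hg a ha
    have h1 := hg a ha
    change g.symm a = a
    rw [AlgEquiv.symm_apply_eq, h1]

end Field

end Pool.Agent.W536.Fix
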