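import Pool.Agent.W536.FixDefs

/-!
# Fixed elements of the geometric fundamental group
-/

open Topology

namespace Pool.Agent.W536.Fix

/-- **Fixed elements are trivial.** -/
theorem main {G : Type*} [Group G] [TopologicalSpace G] [IsTopologicalGroup G] [CompactSpace G]
    [TotallyDisconnectedSpace G] {π D : Subgroup G} (h : NoFixedClasses π D) {g : G}
    (hgπ : g ∈ π) (hg : ∀ σ ∈ D, σ * g * σ⁻¹ = g) : g = 1 := by
  by_contra hne
  -- an open normal subgroup which does not contain the element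
  obtain ⟨V, hV, hVg⟩ : ∃ V : Set G, V ∈ 𝓝 (1 : G) ∧ g ∉ V :=
    ⟨{g}ᶜ, isOpen_compl_singleton.mem_nhds (fun h => hne h.symm), fun h => h rfl⟩
  obtain ⟨N, hNV⟩ := ProfiniteGrp.exist_openNormalSubgroup_sub_open_nhds_of_one
    (G := G) (U := interior V) isOpen_interior (mem_interior_iff_mem_nhds.2 hV)
  have hgN : g ∉ N := fun h => hVg (interior_subset (hNV h))
  have hNopen : IsOpen (N.toSubgroup : Set G) := N.isOpen'
  have hNnormal : N.toSubgroup.Normal := N.isNormal'
  -- the subgroup generated by the element and the normal subgroup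
  set U : Subgroup G := N.toSubgroup ⊔ Subgroup.zpowers g with hU
  have hUopen : IsOpen (U : Set G) := Subgroup.isOpen_mono le_sup_left hNopen
  have hgU : g ∈ U := (le_sup_right : Subgroup.zpowers g ≤ U) (Subgroup.mem_zpowers g)
  have hrep : ∀ u ∈ U, ∃ n ∈ N.toSubgroup, ∃ k : ℤ, n * g ^ k = u := by
    intro u hu
    obtain ⟨n, hn, z, hz, rfl⟩ := Subgroup.mem_sup_of_normal_left.1 hu
    obtain ⟨k, rfl⟩ := Subgroup.mem_zpowers_iff.1 hz
    exact ⟨n, hn, k, rfl⟩
  have hcomm : (⁅U ⊓ π, U ⊓ π⁆ : Subgroup G).topologicalClosure ≤ N.toSubgroup := by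
    apply Subgroup.topologicalClosure_minimal _ _ (Subgroup.isClosed_of_isOpen _ hNopen)
    rw [Subgroup.commutator_le]
    intro u hu v hv
    obtain ⟨n, hn, k, rfl⟩ := hrep u hu.1
    obtain ⟨n', hn', l, rfl⟩ := hrep v hv.1
    rw [← QuotientGroup.eq_one_iff]
    have h1 : ((n : G) : G ⧸ N.toSubgroup) = 1 := (QuotientGroup.eq_one_iff n).2 hn
    have h2 : ((n' : G) : G ⧸ N.toSubgroup) = 1 := (QuotientGroup.eq_one_iff n').2 hn'
    rw [commutatorElement_def]
    simp only [QuotientGroup.mk_mul, QuotientGroup.mk_inv, QuotientGroup.mk_zpow, h1, h2, one_mul]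
    rw [← zpow_add, ← zpow_neg, ← zpow_neg, ← zpow_add, ← zpow_add]
    ring_nf
    exact zpow_zero _
  apply hgN
  apply hcomm
  apply h U hUopen g ⟨hgU, hgπ⟩
  intro σ hσ
  rw [hg σ hσ.2, mul_inv_cancel]
  exact Subgroup.one_mem _

end Pool.Agent.W536.Fix
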