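import Pool.Agent.W536.RDefs

/-!
# Rational and linear independence of algebraic classes: definitions
-/

open CategoryTheory AlgebraicGeometry

universe u v w

namespace Pool.Agent.W536.JJ

section Alg

variable {K A : Type*} [Field K] [Ring A] [Algebra K A]

/-- The operator `T` is a projector onto the subspace `V`. -/
def IsProjectorOnto (T : A →ₗ[K] A) (V : Submodule K A) : Prop :=
  (∀ a, T a ∈ V) ∧ ∀ a ∈ V, T a = a

/-- Every finite family of elements of `S` which is linearly independent over the rational numbers
is linearly independent over the field `K`. -/
def RationalToLinear [CharZero K] (S : Set A) : Prop :=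
  ∀ (r : ℕ) (v : Fin r → A), (∀ i, v i ∈ S) →
    (∀ c : Fin r → ℚ, ∑ i, (c i : K) • v i = 0 → c = 0) → LinearIndependent K v

end Alg

open Pool.Agent.H914 Pool.Agent.H914.VarClass Pool.Agent.H914.VarClass.Obj
  Pool.Agent.H914.WeilCohomology Pool.Agent.H281R3.HT Pool.Agent.W536.RR

variable {k : Type u} [Field k] {𝒱 : VarClass k} {ops : CycleOps 𝒱}

/-- Algebraic classes of the same codimension on `X` (classes of cycles with rational coefficients)
which are linearly independent over the rational numbers are linearly independent over the
coefficient field of the cohomology. -/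
def IndependentClasses (W : WeilCohomology.{u, v} ops) (X : 𝒱.Obj) : Prop :=
  ∀ j, RationalToLinear (K := W.K) (algClasses W X j)

variable {W : WeilCohomology.{u, v} ops}

/-- A cycle (with rational coefficients) on `X × X` acts on the cohomology of `X` as a projector
onto the subspace `V`. -/
def Piece.HasProjector (P : Piece W) : Prop :=
  ∃ z, (P.X.prod P.X).IsCyc P.X.dim z ∧ IsProjectorOnto (W.corr (W.cl (P.X.prod P.X) z)) P.V

/-- The piece is polarized, all complex absolute values of the eigenvalues of `f^*` on `V` are
`q ^ (d / 2)`, and there is an algebraic projector onto `V`. -/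
structure IsPurePiece (P : Piece W) (q : ℕ) : Prop where
  pol : P.IsPolarized q
  weight : HasWeight (W.map P.f).toLinearMap P.V ((q : ℝ) ^ P.d)
  proj : Piece.HasProjector P

end Pool.Agent.W536.JJ
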