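import Pool.Agent.W536.RDefs

/-!
# Bases of eigenvectors and their dual bases
-/

open Module

namespace Pool.Agent.W536.JJ

open Pool.Agent.W536.RR

variable {K A : Type*} [Field K] [CharZero K] [Ring A] [Algebra K A]

/-- A polarized space has a basis of eigenvectors with a dual basis of eigenvectors. -/
lemma exists_eigenbasis [Module.Finite K A] {gr : ℕ → Submodule K A} {n : ℕ} {tr : A →ₗ[K] K}
    {F : A →ₐ[K] A} {q d : ℕ} {V : Submodule K A} {ζ : A} (hq : q ≠ 0)
    (h : IsPolarizedSpace gr n tr F q d V ζ) :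
    ∃ (N : ℕ) (α : Fin N → K) (b b' : Fin N → A), (∀ i, α i ≠ 0) ∧
      (∀ i, IsEigenvectorIn F V (α i) (b i)) ∧
      (∀ i, IsEigenvectorIn F V ((q : K) ^ d / α i) (b' i)) ∧
      (∀ i k, tr (b i * b' k * ζ) = if i = k then 1 else 0) ∧
      V ≤ Submodule.span K (Set.range b) := by
  classical
  have hqK : (q : K) ≠ 0 := Nat.cast_ne_zero.2 hq
  set S : Set A := {v | v ∈ V ∧ ∃ α : K, F v = α • v} with hS
  obtain ⟨s, hsS, hspan, hli⟩ := exists_linearIndependent K S
  have hfin : s.Finite := hli.setFinite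
  have : Fintype s := hfin.fintype
  set N := Fintype.card s with hN
  set e : Fin N ≃ s := (Fintype.equivFin s).symm with he
  set b : Fin N → A := fun i => (e i : A) with hb
  have hbli : LinearIndependent K b := hli.comp e e.injective
  have hbS : ∀ i, b i ∈ S := fun i => hsS (e i).2
  have hVb : V ≤ Submodule.span K (Set.range b) := by
    have h1 : Set.range b = s := by
      rw [hb]
      ext x
      constructor
      · rintro ⟨i, rfl⟩
        exact (e i).2
      · intro hx
        exact ⟨e.symm ⟨x, hx⟩, by simp⟩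
    rw [h1, hspan]
    exact h.eigen
  have hbV : ∀ i, b i ∈ V := fun i => (hbS i).1
  choose α hα using fun i => (hbS i).2
  -- the evaluation map
  set Ψ : V →ₗ[K] (Fin N → K) := LinearMap.pi fun i =>
    tr ∘ₗ LinearMap.mulRight K ζ ∘ₗ LinearMap.mulLeft K (b i) ∘ₗ V.subtype with hΨ
  have hΨ' : ∀ (w : V) (i : Fin N), Ψ w i = tr (b i * (w : A) * ζ) := fun w i => rfl
  have hsurj : LinearMap.range Ψ = ⊤ := by
    by_contra hcon
    obtain ⟨f, hf, hle⟩ := Submodule.exists_le_ker_of_lt_top _ (lt_top_iff_ne_top.2 hcon)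
    apply hf
    set v : A := ∑ i, f (Pi.single i 1) • b i with hv
    have hvV : v ∈ V := Submodule.sum_mem _ fun i _ => Submodule.smul_mem _ _ (hbV i)
    have hv0 : v = 0 := by
      by_contra hne
      obtain ⟨w, hw, hne'⟩ := h.nondeg v hvV hne
      apply hne'
      have h1 : f (Ψ ⟨w, hw⟩) = 0 := hle ⟨_, rfl⟩
      rw [← LinearMap.sum_single_apply (φ := fun _ : Fin N => K) (Ψ ⟨w, hw⟩),
        map_sum] at h1
      rw [hv, Finset.sum_mul, Finset.sum_mul, map_sum, ← h1]
      refine Finset.sum_congr rfl fun i _ => ?_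
      rw [smul_mul_assoc, smul_mul_assoc, map_smul, ← hΨ' ⟨w, hw⟩ i]
      have h2 : (Pi.single i (Ψ ⟨w, hw⟩ i) : Fin N → K) = Ψ ⟨w, hw⟩ i • Pi.single i 1 := by
        rw [← Pi.single_smul, smul_eq_mul, mul_one]
      rw [h2, map_smul, smul_eq_mul, smul_eq_mul, mul_comm]
    have h3 := Fintype.linearIndependent_iff.1 hbli (fun i => f (Pi.single i 1)) hv0
    apply LinearMap.pi_ext
    intro i x
    have h2 : (Pi.single i x : Fin N → K) = x • Pi.single i 1 := by
      rw [← Pi.single_smul, smul_eq_mul, mul_one]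
    rw [h2, map_smul, h3 i, smul_zero, LinearMap.zero_apply]
  have hinj : Function.Injective Ψ := by
    have h1 : finrank K V = finrank K (Fin N → K) := by
      have h2 : V = Submodule.span K (Set.range b) := le_antisymm hVb
        (Submodule.span_le.2 (by rintro _ ⟨i, rfl⟩; exact hbV i))
      rw [finrank_fin_fun, h2, finrank_span_eq_card hbli, Fintype.card_fin]
    exact (LinearMap.injective_iff_surjective_of_finrank_eq_finrank h1).2
      (LinearMap.range_eq_top.1 hsurj)
  choose w hw using fun k : Fin N =>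
    LinearMap.range_eq_top.1 hsurj (Pi.single k (1 : K))
  have hdual : ∀ i k, tr (b i * (w k : A) * ζ) = if i = k then 1 else 0 := by
    intro i k
    rw [← hΨ', hw, Pi.single_apply]
  -- the map on `V`
  have hFV : ∀ v ∈ V, F v ∈ V := by
    intro v hv
    have h1 := h.eigen hv
    clear hv
    induction h1 using Submodule.span_induction with
    | mem u hu =>
      obtain ⟨hu, c, hc⟩ := hu
      rw [hc]
      exact Submodule.smul_mem _ _ hu
    | zero => rw [map_zero]; exact Submodule.zero_mem _
    | add x y _ _ hx hy => rw [map_add]; exact Submodule.add_mem _ hx hy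
    | smul t x _ hx => rw [map_smul]; exact Submodule.smul_mem _ _ hx
  have hform : ∀ i (u : A), (q : K) ^ d * tr (b i * u * ζ) = α i * tr (b i * F u * ζ) := by
    intro i u
    have h1 := h.degree (b i * u * ζ)
    rw [map_mul F, map_mul F, hα i, h.cyc, smul_mul_assoc, smul_mul_smul_comm, map_smul,
      smul_eq_mul] at h1
    have h2 : (q : K) ^ n = (q : K) ^ (n - d) * (q : K) ^ d := by
      rw [← pow_add, Nat.sub_add_cancel h.le]
    rw [h2] at h1
    have h3 : (q : K) ^ (n - d) ≠ 0 := pow_ne_zero _ hqK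
    apply mul_left_cancel₀ h3
    linear_combination -h1
  have hα0 : ∀ i, α i ≠ 0 := by
    intro i h0
    have h1 := hform i (w i)
    rw [h0, zero_mul, hdual, if_pos rfl, mul_one] at h1
    exact pow_ne_zero _ hqK h1
  have hFw : ∀ k, F (w k : A) = ((q : K) ^ d / α k) • (w k : A) := by
    intro k
    have h1 : (⟨F (w k : A), hFV _ (w k).2⟩ : V) = ((q : K) ^ d / α k) • w k := by
      apply hinj
      ext i
      rw [map_smul, Pi.smul_apply, hw, hΨ', smul_eq_mul]
      have h2 := hform i (w k)
      rw [hdual] at h2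
      by_cases hik : i = k
      · subst hik
        rw [if_pos rfl, mul_one] at h2
        rw [Pi.single_eq_same, mul_one, eq_div_iff (hα0 i), h2, mul_comm]
      · rw [if_neg hik, mul_zero] at h2
        rw [Pi.single_eq_of_ne hik, mul_zero]
        exact (mul_eq_zero.1 h2.symm).resolve_left (hα0 i)
    exact congrArg Subtype.val h1
  refine ⟨N, α, b, fun k => w k, hα0, fun i => ⟨hbV i, hbli.ne_zero i, hα i⟩,
    fun k => ⟨(w k).2, ?_, hFw k⟩, hdual, hVb⟩
  intro h0
  have h1 := hdual k k
  replace h0 : (w k : A) = 0 := h0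
  rw [h0, mul_zero, zero_mul, map_zero, if_pos rfl] at h1
  exact zero_ne_one h1

end Pool.Agent.W536.JJ
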