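import Mathlib

/-!
# Rational relations and relations over a larger field
-/

open Polynomial

namespace Pool.Agent.W536.JJ

section Rel

variable {K A E : Type*} [Field K] [AddCommGroup A] [Module K A]

/-- Relations with coefficients in the field follow from the rational relations. -/
lemma sum_eq_zero_of_rat [CharZero K] {v : E → A} {ψ : E → K}
    (hI : ∀ s : Finset E, (∀ c : E → ℚ, ∑ m ∈ s, (c m : K) • v m = 0 → ∀ m ∈ s, c m = 0) →
      ∀ g : E → K, ∑ m ∈ s, g m • v m = 0 → ∀ m ∈ s, g m = 0)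
    (h : ∀ (s : Finset E) (c : E → ℚ), ∑ m ∈ s, (c m : K) • v m = 0 →
      ∑ m ∈ s, (c m : K) * ψ m = 0)
    (s : Finset E) : ∀ g : E → K, ∑ m ∈ s, g m • v m = 0 → ∑ m ∈ s, g m * ψ m = 0 := by
  classical
  induction s using Finset.strongInduction with
  | H s ih =>
    intro g hg
    by_cases hs : ∀ c : E → ℚ, ∑ m ∈ s, (c m : K) • v m = 0 → ∀ m ∈ s, c m = 0
    · refine Finset.sum_eq_zero fun m hm => ?_
      rw [hI s hs g hg m hm, zero_mul]
    · push Not at hs
      obtain ⟨c, hc, m₀, hm₀, hne⟩ := hs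
      have hne' : (c m₀ : K) ≠ 0 := Rat.cast_ne_zero.2 hne
      set r : K := g m₀ / c m₀ with hr
      have h1 : ∑ m ∈ s.erase m₀, (g m - r * c m) • v m = 0 := by
        have e1 : ∑ m ∈ s, (g m - r * c m) • v m = 0 := by
          simp only [sub_smul, Finset.sum_sub_distrib, mul_smul, ← Finset.smul_sum]
          rw [hg, hc, smul_zero, sub_zero]
        rw [← Finset.add_sum_erase s _ hm₀] at e1
        have e2 : g m₀ - r * c m₀ = 0 := by rw [hr, div_mul_cancel₀ _ hne', sub_self]
        rwa [e2, zero_smul, zero_add] at e1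
      have h2 := ih (s.erase m₀) (Finset.erase_ssubset hm₀) (fun m => g m - r * c m) h1
      have h3 : ∑ m ∈ s, (g m - r * c m) * ψ m = 0 := by
        rw [← Finset.add_sum_erase s _ hm₀, h2]
        have e2 : g m₀ - r * c m₀ = 0 := by rw [hr, div_mul_cancel₀ _ hne', sub_self]
        rw [e2, zero_mul, zero_add]
      simp only [sub_mul, Finset.sum_sub_distrib, mul_assoc, ← Finset.mul_sum] at h3
      rw [h s c hc, mul_zero, sub_zero] at h3
      exact h3

/-- Separation of characters. -/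
lemma exists_separating {K M : Type*} [Field K] [AddCommMonoid M]
    (Λ : Finset (Multiplicative M →* K)) (χ : Multiplicative M →* K) (hχ : χ ∉ Λ) :
    ∃ (s : Finset M) (g : M → K), ∑ m ∈ s, g m * χ (Multiplicative.ofAdd m) ≠ 0 ∧
      ∀ l ∈ Λ, ∑ m ∈ s, g m * l (Multiplicative.ofAdd m) = 0 := by
  classical
  have hsep : ∀ l ∈ Λ, ∃ m : M, l (Multiplicative.ofAdd m) ≠ χ (Multiplicative.ofAdd m) := by
    intro l hl
    by_contra hcon
    push Not at hcon
    apply hχ
    have : l = χ := MonoidHom.ext fun m => hcon (Multiplicative.toAdd m)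
    rwa [← this]
  choose! m hm using hsep
  set G : AddMonoidAlgebra K M := ∏ l ∈ Λ, (AddMonoidAlgebra.single (m l) 1 -
    algebraMap K (AddMonoidAlgebra K M) (l (Multiplicative.ofAdd (m l)))) with hG
  have hlift : ∀ l' : Multiplicative M →* K, AddMonoidAlgebra.lift K K M l' G =
      ∏ l ∈ Λ, (l' (Multiplicative.ofAdd (m l)) - l (Multiplicative.ofAdd (m l))) := by
    intro l'
    rw [hG, map_prod]
    refine Finset.prod_congr rfl fun l _ => ?_
    rw [map_sub, AlgHom.commutes, AddMonoidAlgebra.lift_single, one_smul]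
    rfl
  have hsum : ∀ l' : Multiplicative M →* K, AddMonoidAlgebra.lift K K M l' G =
      ∑ m ∈ G.coeff.support, G.coeff m * l' (Multiplicative.ofAdd m) := by
    intro l'
    rw [AddMonoidAlgebra.lift_apply]
    rfl
  refine ⟨G.coeff.support, G.coeff, ?_, fun l hl => ?_⟩
  · rw [← hsum, hlift]
    exact Finset.prod_ne_zero_iff.2 fun l hl => sub_ne_zero.2 (hm l hl).symm
  · rw [← hsum, hlift]
    exact Finset.prod_eq_zero hl (sub_self _)

end Rel

section Conj

variable {K : Type*} [Field K] [CharZero K]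

/-- The numbers are algebraic, and their images under the embedding are complex conjugate. -/
def ConjRel (τ : algebraicClosure ℚ K →+* ℂ) (a b : K) : Prop :=
  ∃ a' b' : algebraicClosure ℚ K, (a' : K) = a ∧ (b' : K) = b ∧
    τ b' = (starRingEnd ℂ) (τ a')

variable {τ : algebraicClosure ℚ K →+* ℂ}

lemma ConjRel.add {a b a' b' : K} (h : ConjRel τ a b) (h' : ConjRel τ a' b') :
    ConjRel τ (a + a') (b + b') := by
  obtain ⟨x, y, rfl, rfl, h⟩ := h
  obtain ⟨x', y', rfl, rfl, h'⟩ := h'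
  exact ⟨x + x', y + y', rfl, rfl, by rw [map_add, map_add, map_add, h, h']⟩

lemma ConjRel.mul {a b a' b' : K} (h : ConjRel τ a b) (h' : ConjRel τ a' b') :
    ConjRel τ (a * a') (b * b') := by
  obtain ⟨x, y, rfl, rfl, h⟩ := h
  obtain ⟨x', y', rfl, rfl, h'⟩ := h'
  exact ⟨x * x', y * y', rfl, rfl, by rw [map_mul, map_mul, map_mul, h, h']⟩

lemma ConjRel.one : ConjRel τ (1 : K) 1 := ⟨1, 1, rfl, rfl, by simp⟩

lemma ConjRel.pow {a b : K} (h : ConjRel τ a b) (n : ℕ) : ConjRel τ (a ^ n) (b ^ n) := by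
  induction n with
  | zero => simpa using ConjRel.one
  | succ n ih => rw [pow_succ, pow_succ]; exact ih.mul h

lemma ConjRel.rat (r : ℚ) : ConjRel τ (r : K) r :=
  ⟨(r : algebraicClosure ℚ K), (r : algebraicClosure ℚ K), by simp, by simp, by simp⟩

lemma ConjRel.sum {E : Type*} (s : Finset E) {a b : E → K} (h : ∀ i ∈ s, ConjRel τ (a i) (b i)) :
    ConjRel τ (∑ i ∈ s, a i) (∑ i ∈ s, b i) := by
  classical
  induction s using Finset.induction_on with
  | empty => simpa using ConjRel.rat (τ := τ) 0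
  | insert i s hi ih =>
    rw [Finset.sum_insert hi, Finset.sum_insert hi]
    exact (h i (Finset.mem_insert_self i s)).add
      (ih fun j hj => h j (Finset.mem_insert_of_mem hj))

lemma ConjRel.eq_zero {b : K} (h : ConjRel τ 0 b) : b = 0 := by
  obtain ⟨x, y, hx, rfl, h⟩ := h
  have h1 : x = 0 := Subtype.ext hx
  rw [h1, map_zero, map_zero] at h
  have h2 : y = 0 := (map_eq_zero τ).1 h
  rw [h2]
  rfl

/-- A root of a rational polynomial all of whose complex roots have the absolute value `√w`, and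
its quotient. -/
lemma ConjRel.of_root {p : ℚ[X]} (hp : p ≠ 0) {q d : ℕ}
    (hw : ∀ z : ℂ, aeval z p = 0 → ‖z‖ ^ 2 = (q : ℝ) ^ d) {a : K} (ha : aeval a p = 0)
    (ha0 : a ≠ 0) : ConjRel τ a ((q : K) ^ d / a) := by
  have halg : IsAlgebraic ℚ a := ⟨p, hp, ha⟩
  set x : algebraicClosure ℚ K := ⟨a, mem_algebraicClosure_iff.2 halg⟩ with hx
  have hx0 : x ≠ 0 := fun h => ha0 (congrArg Subtype.val h)
  refine ⟨x, (q : algebraicClosure ℚ K) ^ d / x, rfl, rfl, ?_⟩
  have h1 : aeval x p = 0 := by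
    apply Subtype.val_injective
    have : ((aeval x p : algebraicClosure ℚ K) : K) = aeval (x : K) p := by
      exact (Polynomial.aeval_algebraMap_apply K x p).symm
    rw [this]
    exact ha
  have h2 : aeval (τ x) p = 0 := by
    have e1 := congrArg τ h1
    rw [map_zero, aeval_def, hom_eval₂] at e1
    rw [aeval_def]
    rwa [Subsingleton.elim (algebraMap ℚ ℂ) (τ.comp (algebraMap ℚ (algebraicClosure ℚ K)))]
  have h3 := hw _ h2
  have h4 : τ x ≠ 0 := fun h => hx0 ((map_eq_zero τ).1 h)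
  rw [map_div₀, map_pow, map_natCast, div_eq_iff h4]
  have h5 : (starRingEnd ℂ) (τ x) * τ x = ((‖τ x‖ ^ 2 : ℝ) : ℂ) := by
    rw [mul_comm, Complex.mul_conj, Complex.normSq_eq_norm_sq]
  rw [h5, h3]
  push_cast
  rfl

lemma exists_embedding (K : Type*) [Field K] [CharZero K] :
    Nonempty (algebraicClosure ℚ K →+* ℂ) := by
  let _ : Algebra ℚ (algebraicClosure ℚ K) := (algebraicClosure ℚ K).algebra'
  have : Algebra.IsAlgebraic ℚ (algebraicClosure ℚ K) := algebraicClosure.isAlgebraic ℚ K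
  exact ⟨(IsAlgClosed.lift (R := ℚ) (S := algebraicClosure ℚ K) (M := ℂ)).toRingHom⟩

end Conj

end Pool.Agent.W536.JJ
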