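import Pool.Agent.W536.JOps
import Pool.Agent.W536.JLin

/-!
# Conjecture D from the independence of algebraic classes
-/

open CategoryTheory AlgebraicGeometry

universe u v w

namespace Pool.Agent.W536.JJ

open Pool.Agent.H914 Pool.Agent.H914.VarClass Pool.Agent.H914.VarClass.Obj
  Pool.Agent.H914.WeilCohomology Pool.Agent.H281R3.HT Pool.Agent.W536.RR

variable {k : Type u} [Field k] {𝒱 : VarClass k} {ops : CycleOps 𝒱}
  {W : WeilCohomology.{u, v} ops} {X Y Z : 𝒱.Obj} {ι : Type w} {P : ι → Piece W} {q : ℕ}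

/-- A numerically trivial class pairs nontrivially with a monomial. -/
lemma exists_pairing (H : Hyp P q) (hY : IsGenerated P Y) {x : W.H Y} (hx : x ∈ numZ W Y)
    (h0 : x ≠ 0) : ∃ (Q : 𝒱.Obj) (x' : W.H Q) (c : Coordinate P Q) (l : List (Coordinate P Q)),
      x' ∈ numZ W Q ∧ W.tr Q (x' * ((c :: l).map Coordinate.ev).prod) ≠ 0 := by
  obtain ⟨Q, h, n, l, hn, hne⟩ : ∃ (Q : 𝒱.Obj) (h : Q ⟶ Y) (n : W.H Q)
      (l : List (Coordinate P Q)), n ∈ algSpan W Q ∧
      W.tr Y (x * W.push h (n * (l.map Coordinate.ev).prod)) ≠ 0 := by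
    by_contra hcon
    push Not at hcon
    apply h0
    apply W.nondeg
    intro b
    have h1 := hY _ (isClosedFamily H) b
    induction h1 using Submodule.span_induction with
    | mem b hb =>
      obtain ⟨Q, h, n, l, hn, rfl⟩ := hb
      exact hcon Q h n l hn
    | zero => rw [mul_zero, map_zero]
    | add x y _ _ hx hy => rw [mul_add, map_add, hx, hy, add_zero]
    | smul t x _ hx => rw [mul_smul_comm, map_smul, hx, smul_zero]
  rw [algSpan_comm hx.1, W.tr_push, ← algSpan_comm (algSpan_map h hx.1), ← mul_assoc] at hne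
  have hx' : W.map h x * n ∈ numZ W Q := numZ_mul (numZ_map h hx) hn
  cases l with
  | nil =>
    exfalso
    apply hne
    rw [List.map_nil, List.prod_nil]
    exact mem_transc.1 hx'.2 _ one_mem_algSpan
  | cons c l => exact ⟨Q, _, c, l, hx', hne⟩

/-- All monomials with the dual labels are numerically trivial. -/
lemma numZ_dual (H : Hyp P q)
    (hd : ∀ x, IsLabel P x → AlgebraicMonomials P {x, dualLabel P q x})
    {Q R : 𝒱.Obj} {x' : W.H Q} (hx' : x' ∈ numZ W Q) (L : List (Coordinate P Q))
    (hne : W.tr Q (x' * (L.map Coordinate.ev).prod) ≠ 0) (M : List (Coordinate P R))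
    (hlab : M.map Coordinate.label = (L.map Coordinate.label).map (dualLabel P q)) :
    (M.map Coordinate.ev).prod ∈ numZ W R := by
  have hN : W.map (fst Q R) (L.map Coordinate.ev).prod *
      W.map (snd Q R) (M.map Coordinate.ev).prod ∈ algSpan W (Q.prod R) := by
    rw [← map_comp_ev, ← map_comp_ev, ← List.prod_append, ← List.map_append]
    apply prod_mem_algSpan H.deg
      ((L.map Coordinate.label : Multiset (ι × W.K)).map fun x => {x, dualLabel P q x})
    · intro r hr
      obtain ⟨x, hx, rfl⟩ := Multiset.mem_map.1 hr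
      rw [Multiset.mem_coe, List.mem_map] at hx
      obtain ⟨c, -, rfl⟩ := hx
      exact hd _ ⟨c.x.v, c.x.prop⟩
    · rw [List.map_append, map_comp_label, map_comp_label, hlab]
      generalize L.map Coordinate.label = L'
      clear hlab hne
      rw [← Multiset.coe_add, ← Multiset.map_coe]
      generalize (L' : Multiset (ι × W.K)) = s
      induction s using Multiset.induction_on with
      | empty => simp
      | cons a s ih =>
        rw [Multiset.map_cons, Multiset.map_cons, Multiset.sum_cons, ← ih,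
          Multiset.insert_eq_cons]
        rw [Multiset.cons_add, Multiset.cons_add, Multiset.add_cons,
          Multiset.singleton_add]
  have h2 := numZ_push (snd Q R) (numZ_mul (numZ_map (fst Q R) hx') hN)
  rw [← mul_assoc, ← map_mul, W.push_snd] at h2
  exact (Submodule.smul_mem_iff _ hne).1 h2

/-- The number `q ^ d / α` is the complex conjugate of `α`. -/
lemma conjRel_alpha (B : EBasis P q)
    (hw : ∀ j, HasWeight (W.map (P j).f).toLinearMap (P j).V ((q : ℝ) ^ (P j).d))
    (τ : algebraicClosure ℚ W.K →+* ℂ) (j : ι) (i : Fin (B.n j)) :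
    ConjRel τ (B.α j i) ((q : W.K) ^ (P j).d / B.α j i) := by
  obtain ⟨p, hp, h1, h2⟩ := hw j
  refine ConjRel.of_root hp h2 ?_ (B.ne j i)
  have h3 := h1 _ (B.eb j i).mem
  have h4 : (W.map (P j).f).toLinearMap (B.b j i) = B.α j i • B.b j i := (B.eb j i).eig
  have h5 : Polynomial.aeval (W.map (P j).f).toLinearMap (p.map (algebraMap ℚ W.K)) (B.b j i) =
      (p.map (algebraMap ℚ W.K)).eval (B.α j i) • B.b j i :=
    Module.End.aeval_apply_of_hasEigenvector
      (Module.End.hasEigenvector_iff.2 ⟨Module.End.mem_eigenspace_iff.2 h4, (B.eb j i).ne⟩)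
  rw [h5] at h3
  have h6 := (smul_eq_zero.1 h3).resolve_right (B.eb j i).ne
  rw [Polynomial.eval_map] at h6
  rw [Polynomial.aeval_def]
  exact h6

lemma conjRel_val (B : EBasis P q)
    (hw : ∀ j, HasWeight (W.map (P j).f).toLinearMap (P j).V ((q : ℝ) ^ (P j).d))
    (τ : algebraicClosure ℚ W.K →+* ℂ) (t : Tree ι) (e : t.Dec B) : ∀ m,
    ConjRel τ (Tree.val B.α t e m)
      (Tree.val (fun j i => (q : W.K) ^ (P j).d / B.α j i) t e m) := by
  induction t with
  | leaf j => exact fun m => (conjRel_alpha B hw τ j e).pow _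
  | node a b ha hb => exact fun m => (ha e.1 _).mul (hb e.2 _)

/-- The independence of a family indexed by a finite subset. -/
lemma RationalToLinear.finset {K A E : Type*} [Field K] [CharZero K] [Ring A] [Algebra K A]
    {S : Set A} (h : RationalToLinear (K := K) S) {v : E → A} (hv : ∀ m, v m ∈ S) (s : Finset E)
    (hs : ∀ c : E → ℚ, ∑ m ∈ s, (c m : K) • v m = 0 → ∀ m ∈ s, c m = 0) (g : E → K)
    (hg : ∑ m ∈ s, g m • v m = 0) : ∀ m ∈ s, g m = 0 := by
  classical
  set e := s.equivFin with he
  have h1 := h s.card (fun i => v (e.symm i)) (fun i => hv _) (by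
    intro c hc
    set c' : E → ℚ := fun m => if hm : m ∈ s then c (e ⟨m, hm⟩) else 0 with hc'
    have h2 : ∀ i, c' (e.symm i) = c i := by
      intro i
      rw [hc']
      beta_reduce
      rw [dif_pos (e.symm i).2]
      simp
    have h3 : ∑ m ∈ s, (c' m : K) • v m = 0 := by
      rw [← Finset.sum_coe_sort, ← e.symm.sum_comp]
      simp only [h2]
      exact hc
    funext i
    rw [← h2 i]
    exact hs c' h3 _ (e.symm i).2)
  intro m hm
  have h2 := Fintype.linearIndependent_iff.1 h1 (fun i => g (e.symm i)) (by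
    rw [← Finset.sum_coe_sort, ← e.symm.sum_comp] at hg
    exact hg) (e ⟨m, hm⟩)
  simpa using h2

open Pool.Agent.W536.JJ.Tree in
/-- **The main step.** -/
theorem eq_zero_of_independent (H : Hyp P q)
    (hw : ∀ j, HasWeight (W.map (P j).f).toLinearMap (P j).V ((q : ℝ) ^ (P j).d))
    (hproj : ∀ j, Piece.HasProjector (P j))
    (hd : ∀ x, IsLabel P x → AlgebraicMonomials P {x, dualLabel P q x})
    (hI : ∀ Q, IsProductOf (Set.range fun j => (P j).X) Q → IndependentClasses W Q)
    (hY : IsGenerated P Y) {x : W.H Y} (hx : x ∈ numZ W Y) : x = 0 := by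
  classical
  by_contra h0
  obtain ⟨Q, x', c, l, hx', hne⟩ := exists_pairing H hY hx h0
  obtain ⟨B⟩ := exists_eBasis H
  -- the dual labels
  set L := c :: l with hL
  obtain ⟨t, e₀, he₀⟩ := exists_tree B (c.dual H).label
    ((l.map (Coordinate.dual H)).map Coordinate.label) (by
      intro y hy
      have : y ∈ (((c :: l).map (Coordinate.dual H)).map Coordinate.label) := hy
      obtain ⟨c', -, rfl⟩ := List.mem_map.1 this
      exact ⟨c'.x.v, c'.x.prop⟩)
  have he₁ : labels B.α t e₀ = (L.map Coordinate.label).map (dualLabel P q) := by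
    rw [he₀]
    change ((L.map (Coordinate.dual H)).map Coordinate.label) = _
    rw [List.map_map, List.map_map]
    rfl
  set β : ∀ j, Fin (B.n j) → W.K := fun j i => (q : W.K) ^ (P j).d / B.α j i with hβ
  have hα : ∀ e, labels B.α t e = labels B.α t e₀ → mono B.b t e ∈ numZ W (t.obj P) := by
    intro e he
    rw [← coords_prod B.b B.α B.eb]
    exact numZ_dual H hd hx' L hne _ (by rw [coords_label, he, he₁])
  have hα' : ∀ e, labels β t e = labels B.α t e₀ → mono B.b' t e ∈ numZ W (t.obj P) := by
    intro e he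
    rw [← coords_prod B.b' β B.eb']
    exact numZ_dual H hd hx' L hne _ (by rw [coords_label, he, he₁])
  obtain ⟨ε, hε, hpair, hpair'⟩ := pairing (B := B) H t
  obtain ⟨π, hπ, hπ1, hπ2⟩ := exists_projector (B := B) hproj t
  -- a rational class which pairs nontrivially
  obtain ⟨j, y, hy, hyV, hyne⟩ : ∃ (j : ℕ) (y : W.H (t.obj P)), y ∈ algClasses W (t.obj P) j ∧
      y ∈ Submodule.span W.K (Set.range (mono B.b t)) ∧
      W.tr (t.obj P) (y * (mono B.b' t e₀ * cyc P t)) ≠ 0 := by
    by_contra hcon
    push Not at hcon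
    have h1 : ∀ a ∈ algSpan W (t.obj P),
        W.tr (t.obj P) (π a * (mono B.b' t e₀ * cyc P t)) = 0 := by
      intro a ha
      refine algSpan_induction (p := fun a =>
        W.tr (t.obj P) (π a * (mono B.b' t e₀ * cyc P t)) = 0) ?_ ?_ ?_ ?_ ha
      · rw [map_zero, zero_mul, map_zero]
      · intro a b ha hb; rw [map_add, add_mul, map_add, ha, hb, add_zero]
      · intro r a ha; rw [map_smul, smul_mul_assoc, map_smul, ha, smul_zero]
      · intro j z hz
        exact hcon j _ (hπ.map_cl ⟨z, hz, rfl⟩) (hπ1 _)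
    have h2 := h1 _ (hα e₀ rfl).1
    rw [hπ2, hpair] at h2
    exact hε h2
  -- coordinates of the class
  obtain ⟨a, ha⟩ := (Submodule.mem_span_range_iff_exists_fun W.K).1 hyV
  have hcoef : ∀ (a : t.Dec B → W.K) (e : t.Dec B),
      W.tr (t.obj P) ((∑ e', a e' • mono B.b t e') * (mono B.b' t e * cyc P t)) =
        a e * ε := by
    intro a e
    rw [Finset.sum_mul, map_sum, Finset.sum_eq_single e]
    · rw [smul_mul_assoc, map_smul, hpair, smul_eq_mul]
    · intro e' _ he'
      rw [smul_mul_assoc, map_smul, hpair' _ _ he', smul_zero]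
    · intro h; exact absurd (Finset.mem_univ e) h
  -- the translates
  set v : (List Bool → ℕ) → W.H (t.obj P) := fun m => W.map (Fr P t m) y with hv
  have hvalg : ∀ m, v m ∈ algClasses W (t.obj P) j := fun m => map_cl _ hy
  have hvsum : ∀ m, v m = ∑ e, (val B.α t e m * a e) • mono B.b t e := by
    intro m
    rw [hv]
    beta_reduce
    rw [← ha, map_sum]
    refine Finset.sum_congr rfl fun e _ => ?_
    rw [map_smul, Fr_mono B.b B.α B.eb, smul_smul, mul_comm]
  have hcomb : ∀ (s : Finset (List Bool → ℕ)) (g : (List Bool → ℕ) → W.K),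
      ∑ m ∈ s, g m • v m = ∑ e, ((∑ m ∈ s, g m * val B.α t e m) * a e) • mono B.b t e := by
    intro s g
    simp only [hvsum, Finset.smul_sum, smul_smul]
    rw [Finset.sum_comm]
    refine Finset.sum_congr rfl fun e _ => ?_
    rw [← Finset.sum_smul, Finset.sum_mul]
    simp only [mul_assoc]
  have ha₀ : a e₀ ≠ 0 := by
    intro h
    apply hyne
    rw [← ha, hcoef, h, zero_mul]
  obtain ⟨τ⟩ := exists_embedding W.K
  -- rational relations
  have hrat : ∀ (s : Finset (List Bool → ℕ)) (c : (List Bool → ℕ) → ℚ),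
      ∑ m ∈ s, (c m : W.K) • v m = 0 → ∑ m ∈ s, (c m : W.K) * val β t e₀ m = 0 := by
    intro s c hc
    have h1 : (∑ m ∈ s, (c m : W.K) * val B.α t e₀ m) = 0 := by
      have h2 := hcoef (fun e => (∑ m ∈ s, (c m : W.K) * val B.α t e m) * a e) e₀
      rw [← hcomb, hc, zero_mul, map_zero] at h2
      rcases mul_eq_zero.1 h2.symm with h3 | h3
      · exact (mul_eq_zero.1 h3).resolve_right ha₀
      · exact absurd h3 hε
    have h2 : ConjRel τ (∑ m ∈ s, (c m : W.K) * val B.α t e₀ m)
        (∑ m ∈ s, (c m : W.K) * val β t e₀ m) :=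
      ConjRel.sum s fun m _ => (ConjRel.rat (c m)).mul (conjRel_val B hw τ t e₀ m)
    rw [h1] at h2
    exact h2.eq_zero
  have hlin := sum_eq_zero_of_rat (v := v) (ψ := val β t e₀)
    (fun s hs g hg => ((hI _ t.isProductOf) j).finset hvalg s hs g hg) hrat
  -- separation of the characters
  obtain ⟨s, g, hg, hg'⟩ := exists_separating
    ((Finset.univ.image fun e => char B.α t e).erase (char β t e₀)) (char β t e₀)
    (Finset.notMem_erase _ _)
  apply hg
  have h3 : ∑ m ∈ s, g m • v m = 0 := by
    rw [hcomb]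
    refine Finset.sum_eq_zero fun e _ => ?_
    by_cases he : char B.α t e = char β t e₀
    · -- the coefficient vanishes
      have h4 : ∀ m, val B.α t e m = val β t e₀ m := fun m => DFunLike.congr_fun he
        (Multiplicative.ofAdd m)
      have h5 : labels B.α t e = labels β t e₀ := labels_of_val t e e₀ h4
      have h6 : labels β t e = labels B.α t e₀ := by
        rw [hβ, labels_dual, h5, hβ, labels_dual, dual_dual H.qK]
      have h7 : a e * ε = 0 := by
        rw [← hcoef a e, ha]
        have h8 : mono B.b' t e * cyc P t ∈ numZ W (t.obj P) :=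
          numZ_mul (hα' e h6) (cyc_mem H t)
        have h9 : y ∈ algSpan W (t.obj P) := by
          obtain ⟨z, hz, rfl⟩ := hy
          exact cl_mem_algSpan hz
        rw [algSpan_comm h9]
        exact mem_transc.1 h8.2 _ h9
      rw [(mul_eq_zero.1 h7).resolve_right hε, mul_zero, zero_smul]
    · have h4 := hg' (char B.α t e) (Finset.mem_erase.2 ⟨he,
        Finset.mem_image.2 ⟨e, Finset.mem_univ e, rfl⟩⟩)
      have h5 : ∑ m ∈ s, g m * val B.α t e m = 0 := h4
      rw [h5, zero_mul, zero_smul]
  exact hlin s g h3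

/-- Conjecture `D` implies the independence. -/
theorem independent_of_homEqNum (h : HomEqNum W Y) : IndependentClasses W Y := by
  classical
  intro j r v hv hrat
  rw [Fintype.linearIndependent_iff]
  intro g hg
  by_cases hj : Y.dim < j
  · -- all classes vanish
    intro i
    exfalso
    have h1 : v i = 0 := by
      obtain ⟨z, hz, h2⟩ := hv i
      have h3 := W.cl_mem hz
      rw [W.gr_eq_bot Y _ (by omega), Submodule.mem_bot] at h3
      rw [← h2, h3]
    have h2 := hrat (Pi.single i 1) (by
      refine Finset.sum_eq_zero fun i' _ => ?_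
      by_cases hi : i' = i
      · rw [hi, h1, smul_zero]
      · rw [Pi.single_eq_of_ne hi, Rat.cast_zero, zero_smul])
    have h3 := congrFun h2 i
    rw [Pi.single_eq_same, Pi.zero_apply] at h3
    exact one_ne_zero h3
  rw [not_lt] at hj
  choose z hz hzv using hv
  set ρ : Y.Cycles → (Fin r → ℚ) := fun w i => Y.V.degCycle (ops.mul (z i) w) with hρ
  have hρ' : ∀ w, Y.IsCyc (Y.dim - j) w → ∀ i, (ρ w i : W.K) = W.tr Y (v i * W.cl Y w) := by
    intro w hw i
    have h1 := ops.mul_mem (hz i) hw
    rw [show j + (Y.dim - j) = Y.dim by omega] at h1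
    rw [← hzv, ← W.cl_mul, W.tr_cl h1]
  set R : Submodule ℚ (Fin r → ℚ) :=
    Submodule.span ℚ {x | ∃ w, Y.IsCyc (Y.dim - j) w ∧ ρ w = x} with hR
  have hRtop : R = ⊤ := by
    by_contra hcon
    obtain ⟨f, hf, hle⟩ := Submodule.exists_le_ker_of_lt_top _ (lt_top_iff_ne_top.2 hcon)
    apply hf
    set c : Fin r → ℚ := fun i => f (Pi.single i 1) with hc
    have hfx : ∀ x, f x = ∑ i, c i * x i := by
      intro x
      rw [LinearMap.pi_apply_eq_sum_univ f x]
      refine Finset.sum_congr rfl fun i _ => ?_
      rw [smul_eq_mul, mul_comm]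
      congr 2
      funext i'
      rw [Pi.single_apply]
      by_cases h : i = i'
      · rw [if_pos h, if_pos h.symm]
      · rw [if_neg h, if_neg (fun h' => h h'.symm)]
    have hcl : W.cl Y (∑ i, c i • z i) = ∑ i, (c i : W.K) • v i := by
      rw [map_sum]
      refine Finset.sum_congr rfl fun i _ => ?_
      rw [W.cl_smul, hzv]
    have hcyc : Y.IsCyc j (∑ i, c i • z i) := by
      have : ∀ s : Finset (Fin r), Y.IsCyc j (∑ i ∈ s, c i • z i) := by
        intro s
        induction s using Finset.induction_on with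
        | empty => rw [Finset.sum_empty]; exact SmVar.IsCyc.zero _ _
        | insert i s hi ih => rw [Finset.sum_insert hi]; exact ((hz i).smul (c i)).add ih
      exact this _
    have h1 : W.cl Y (∑ i, c i • z i) = 0 := by
      apply h j hj _ hcyc
      intro w hw
      have h2 := ops.mul_mem hcyc hw
      rw [show j + (Y.dim - j) = Y.dim by omega] at h2
      have h3 : f (ρ w) = 0 := hle (Submodule.subset_span ⟨w, hw, rfl⟩)
      have h4 : ((Y.V.degCycle (ops.mul (∑ i, c i • z i) w) : ℚ) : W.K) = 0 := by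
        rw [← W.tr_cl h2, W.cl_mul, hcl, Finset.sum_mul, map_sum]
        rw [hfx] at h3
        have h5 : ((∑ i, c i * ρ w i : ℚ) : W.K) = 0 := by rw [h3, Rat.cast_zero]
        rw [Rat.cast_sum] at h5
        rw [← h5]
        refine Finset.sum_congr rfl fun i _ => ?_
        rw [smul_mul_assoc, map_smul, smul_eq_mul, Rat.cast_mul, hρ' w hw]
      exact Rat.cast_eq_zero.1 h4
    rw [hcl] at h1
    have h2 := hrat c h1
    apply LinearMap.ext
    intro x
    rw [hfx, h2, LinearMap.zero_apply]
    simp
  have hker : ∀ x ∈ R, ∑ i, g i * (x i : W.K) = 0 := by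
    intro x hx
    induction hx using Submodule.span_induction with
    | mem x hx =>
      obtain ⟨w, hw, rfl⟩ := hx
      have h1 : W.tr Y ((∑ i, g i • v i) * W.cl Y w) = 0 := by rw [hg, zero_mul, map_zero]
      rw [Finset.sum_mul, map_sum] at h1
      rw [← h1]
      refine Finset.sum_congr rfl fun i _ => ?_
      rw [smul_mul_assoc, map_smul, smul_eq_mul, hρ' w hw]
    | zero => simp
    | add x y _ _ hx hy =>
      simp only [Pi.add_apply, Rat.cast_add, mul_add, Finset.sum_add_distrib]
      rw [hx, hy, add_zero]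
    | smul t x _ hx =>
      simp only [Pi.smul_apply, smul_eq_mul, Rat.cast_mul]
      have : ∀ i, g i * ((t : W.K) * (x i : W.K)) = (t : W.K) * (g i * (x i : W.K)) := by
        intro i; ring
      simp only [this, ← Finset.mul_sum, hx, mul_zero]
  intro i
  have h1 := hker (Pi.single i 1) (by rw [hRtop]; exact Submodule.mem_top)
  rw [Finset.sum_eq_single i] at h1
  · rwa [Pi.single_eq_same, Rat.cast_one, mul_one] at h1
  · intro i' _ hi
    rw [Pi.single_eq_of_ne hi, Rat.cast_zero, mul_zero]
  · intro h; exact absurd (Finset.mem_univ i) h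

/-- Iterated products of generated varieties are generated. -/
lemma isGenerated_prod {S : Set 𝒱.Obj} (hS : ∀ X ∈ S, IsGenerated P X) {Q : 𝒱.Obj}
    (hQ : IsProductOf S Q) : IsGenerated P Q := by
  induction hQ with
  | base h => exact hS _ h
  | @prod X Y _ _ h1 h2 =>
    intro C hC y
    refine W.kunneth_induction (p := fun y => y ∈ C (X.prod Y)) ?_ ?_ y
    · intro a b ha hb
      exact Submodule.add_mem _ ha hb
    · intro i j a _ b _
      exact hC.mul _ _ (hC.map _ _ (h1 C hC a)) _ (hC.map _ _ (h2 C hC b))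

/-- **Conjecture `D` and the independence of algebraic classes.** -/
theorem main (hq : q ≠ 0) (hP : ∀ j, IsPurePiece (P j) q)
    (hd : ∀ x, IsLabel P x → AlgebraicMonomials P {x, dualLabel P q x})
    (hX : ∀ j, IsGenerated P (P j).X) :
    (∀ Y, IsGenerated P Y → HomEqNum W Y) ↔
      ∀ Q, IsProductOf (Set.range fun j => (P j).X) Q → IndependentClasses W Q := by
  constructor
  · intro h Q hQ
    exact independent_of_homEqNum (h Q (isGenerated_prod (by
      rintro _ ⟨j, rfl⟩
      exact hX j) hQ))
  · intro h Y hY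
    apply homEqNum_of_numZ
    intro x hx
    exact eq_zero_of_independent ⟨hq, fun j => (hP j).pol⟩ (fun j => (hP j).weight)
      (fun j => (hP j).proj) hd h hY hx

end Pool.Agent.W536.JJ
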