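import Pool.Agent.W536.JTree

/-!
# Frobenius endomorphisms and projectors on the iterated products
-/

open CategoryTheory AlgebraicGeometry

universe u v w

namespace Pool.Agent.W536.JJ

open Pool.Agent.H914 Pool.Agent.H914.VarClass Pool.Agent.H914.VarClass.Obj
  Pool.Agent.H914.WeilCohomology Pool.Agent.H281R3.HT Pool.Agent.W536.RR

variable {k : Type u} [Field k] {𝒱 : VarClass k} {ops : CycleOps 𝒱}
  {W : WeilCohomology.{u, v} ops} {X Y Z : 𝒱.Obj} {ι : Type w} {P : ι → Piece W} {q : ℕ}

/-- The iterates of an endomorphism. -/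
def iter (f : X ⟶ X) : ℕ → (X ⟶ X)
  | 0 => 𝟙 X
  | n + 1 => iter f n ≫ f

lemma map_iter {f : X ⟶ X} {α : W.K} {v : W.H X} (h : W.map f v = α • v) (n : ℕ) :
    W.map (iter f n) v = α ^ n • v := by
  induction n with
  | zero => rw [iter, W.map_id, pow_zero, one_smul]
  | succ n ih => rw [iter, W.map_comp, h, map_smul, ih, smul_smul, pow_succ, mul_comm]

/-- The operator is induced by a cycle. -/
def RatOp (W : WeilCohomology.{u, v} ops) (Y : 𝒱.Obj) (φ : Module.End W.K (W.H Y)) : Prop :=
  ∃ z, (Y.prod Y).IsCyc Y.dim z ∧ φ = W.corr (W.cl (Y.prod Y) z)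

lemma RatOp.ext {φ : Module.End W.K (W.H Y)} {ψ : Module.End W.K (W.H Z)} (hφ : RatOp W Y φ)
    (hψ : RatOp W Z ψ) : RatOp W (Y.prod Z) (extOp W φ ψ) := by
  obtain ⟨z, hz, rfl⟩ := hφ
  obtain ⟨w, hw, rfl⟩ := hψ
  refine ⟨ops.mul (ops.pull (q1 Y Z) z) (ops.pull (q2 Y Z) w),
    ops.mul_mem (ops.pull_mem (q1 Y Z) hz) (ops.pull_mem (q2 Y Z) hw), ?_⟩
  apply ext_kunneth_lin
  intro a b
  rw [extOp_tmul, W.cl_mul, W.cl_pull, W.cl_pull, corr_ext _ (W.cl_mem hw)]

lemma RatOp.map_cl {φ : Module.End W.K (W.H Y)} (hφ : RatOp W Y φ) {j : ℕ} {c : W.H Y}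
    (hc : c ∈ algClasses W Y j) : φ c ∈ algClasses W Y j := by
  obtain ⟨z, hz, rfl⟩ := hφ
  obtain ⟨w, hw, rfl⟩ := hc
  refine ⟨ops.push (snd Y Y) (ops.mul z (ops.pull (fst Y Y) w)),
    ops.push_mem _ (ops.mul_mem hz (ops.pull_mem _ hw)) (by rw [dim_prod]; omega), ?_⟩
  rw [W.cl_push, W.cl_mul, W.cl_pull, corr_apply]

lemma map_cl (f : Y ⟶ Z) {j : ℕ} {c : W.H Z} (hc : c ∈ algClasses W Z j) :
    W.map f c ∈ algClasses W Y j := by
  obtain ⟨w, hw, rfl⟩ := hc
  exact ⟨ops.pull f w, ops.pull_mem _ hw, W.cl_pull _ _⟩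

namespace Tree

variable {B : EBasis P q}

variable (P) in
/-- The products of the iterates of the endomorphisms. -/
noncomputable def Fr : ∀ t : Tree ι, (List Bool → ℕ) → (t.obj P ⟶ t.obj P)
  | leaf j, m => iter (P j).f (m [])
  | node a b, m => Obj.lift (fst (a.obj P) (b.obj P) ≫ Fr a (fun p => m (false :: p)))
      (snd (a.obj P) (b.obj P) ≫ Fr b (fun p => m (true :: p)))

lemma Fr_mono (u : ∀ j, Fin (B.n j) → W.H (P j).X) (β : ∀ j, Fin (B.n j) → W.K)
    (hu : ∀ j i, IsEigenvectorIn (W.map (P j).f) (P j).V (β j i) (u j i)) (t : Tree ι)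
    (e : t.Dec B) : ∀ m, W.map (Fr P t m) (mono u t e) = val β t e m • mono u t e := by
  induction t with
  | leaf j =>
    intro m
    exact map_iter (hu j e).eig (m [])
  | node a b ha hb =>
    intro m
    set f := fst (a.obj P) (b.obj P) with hf
    set g := snd (a.obj P) (b.obj P) with hg
    have h1 : ∀ (F : a.obj P ⟶ a.obj P) (G : b.obj P ⟶ b.obj P) (x : W.H (a.obj P))
        (y : W.H (b.obj P)), W.map (Obj.lift (f ≫ F) (g ≫ G)) (W.map f x * W.map g y) =
          W.map f (W.map F x) * W.map g (W.map G y) := by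
      intro F G x y
      rw [map_mul (W.map (Obj.lift (f ≫ F) (g ≫ G))), ← W.map_comp, ← W.map_comp,
        Obj.lift_fst, Obj.lift_snd, W.map_comp, W.map_comp]
    have h2 := h1 (Fr P a (fun p => m (false :: p))) (Fr P b (fun p => m (true :: p)))
      (mono u a e.1) (mono u b e.2)
    rw [ha, hb, map_smul, map_smul, smul_mul_smul_comm] at h2
    exact h2

/-- The algebraic projector onto the span of the monomials. -/
lemma exists_projector (hproj : ∀ j, Piece.HasProjector (P j)) (t : Tree ι) :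
    ∃ π : Module.End W.K (W.H (t.obj P)), RatOp W (t.obj P) π ∧
      (∀ y, π y ∈ Submodule.span W.K (Set.range (mono B.b t))) ∧
      ∀ e : t.Dec B, π (mono B.b t e) = mono B.b t e := by
  induction t with
  | leaf j =>
    obtain ⟨z, hz, h1, h2⟩ := hproj j
    exact ⟨W.corr (W.cl _ z), ⟨z, hz, rfl⟩, fun y => B.span j (h1 y),
      fun e => h2 _ (B.eb j e).mem⟩
  | node a b ha hb =>
    obtain ⟨πa, ha1, ha2, ha3⟩ := ha
    obtain ⟨πb, hb1, hb2, hb3⟩ := hb
    refine ⟨extOp W πa πb, ha1.ext hb1, fun y => ?_, fun e => ?_⟩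
    · have key : ∀ x ∈ Submodule.span W.K (Set.range (mono B.b a)),
          ∀ y ∈ Submodule.span W.K (Set.range (mono B.b b)),
          W.map (fst (a.obj P) (b.obj P)) x * W.map (snd (a.obj P) (b.obj P)) y ∈
            Submodule.span W.K (Set.range (mono B.b (node a b))) := by
        intro x hx y hy
        induction hx using Submodule.span_induction with
        | mem x hx =>
          obtain ⟨e, rfl⟩ := hx
          induction hy using Submodule.span_induction with
          | mem y hy =>
            obtain ⟨e', rfl⟩ := hy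
            exact Submodule.subset_span ⟨(e, e'), rfl⟩
          | zero => rw [map_zero, mul_zero]; exact Submodule.zero_mem _
          | add x y _ _ hx hy => rw [map_add, mul_add]; exact Submodule.add_mem _ hx hy
          | smul t x _ hx => rw [map_smul, mul_smul_comm]; exact Submodule.smul_mem _ _ hx
        | zero => rw [map_zero, zero_mul]; exact Submodule.zero_mem _
        | add x y _ _ hx hy => rw [map_add, add_mul]; exact Submodule.add_mem _ hx hy
        | smul t x _ hx => rw [map_smul, smul_mul_assoc]; exact Submodule.smul_mem _ _ hx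
      refine W.kunneth_induction (X := a.obj P) (Y := b.obj P)
        (p := fun y => extOp W πa πb y ∈
          Submodule.span W.K (Set.range (mono B.b (node a b)))) ?_ ?_ y
      · intro x y hx hy
        rw [map_add]
        exact Submodule.add_mem _ hx hy
      · intro i j x _ y _
        rw [extOp_tmul]
        exact key _ (ha2 x) _ (hb2 y)
    · have h1 := extOp_tmul (W := W) πa πb (mono B.b a e.1) (mono B.b b e.2)
      rw [ha3, hb3] at h1
      exact h1

/-- Every label of a piece is the label of a basis vector. -/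
lemma exists_index (B : EBasis P q) {x : ι × W.K} (hx : IsLabel P x) :
    ∃ i, B.α x.1 i = x.2 := by
  obtain ⟨v, hv⟩ := hx
  obtain ⟨c, hc⟩ := (Submodule.mem_span_range_iff_exists_fun W.K).1 (B.span x.1 hv.mem)
  by_contra hcon
  push Not at hcon
  apply hv.ne
  -- the coefficients
  have h1 : ∀ (c' : Fin (B.n x.1) → W.K) (k : Fin (B.n x.1)),
      W.tr (P x.1).X ((∑ i, c' i • B.b x.1 i) * B.b' x.1 k * W.cl _ (P x.1).z) = c' k := by
    intro c' k
    rw [Finset.sum_mul, Finset.sum_mul, map_sum, Finset.sum_eq_single k]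
    · rw [smul_mul_assoc, smul_mul_assoc, map_smul, B.dual, if_pos rfl, smul_eq_mul, mul_one]
    · intro i _ hi
      rw [smul_mul_assoc, smul_mul_assoc, map_smul, B.dual, if_neg hi, smul_zero]
    · intro h; exact absurd (Finset.mem_univ k) h
  have h2 : ∑ i, (B.α x.1 i * c i) • B.b x.1 i = ∑ i, (x.2 * c i) • B.b x.1 i := by
    have e1 := hv.eig
    rw [← hc, map_sum, Finset.smul_sum] at e1
    calc _ = ∑ i, W.map (P x.1).f (c i • B.b x.1 i) := by
          refine Finset.sum_congr rfl fun i _ => ?_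
          rw [map_smul, (B.eb x.1 i).eig, smul_smul, mul_comm]
      _ = _ := by
          rw [e1]
          refine Finset.sum_congr rfl fun i _ => ?_
          rw [smul_smul]
  rw [← hc]
  refine Finset.sum_eq_zero fun i _ => ?_
  have h3 := congrArg (fun y => W.tr (P x.1).X (y * B.b' x.1 i * W.cl _ (P x.1).z)) h2
  beta_reduce at h3
  rw [h1, h1] at h3
  have h4 : c i = 0 := by
    by_contra h0
    exact hcon i (mul_right_cancel₀ h0 h3)
  rw [h4, zero_smul]

/-- Every nonempty list of labels is the list of the labels of a monomial. -/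
lemma exists_tree (B : EBasis P q) (x : ι × W.K) (l : List (ι × W.K))
    (hl : ∀ y ∈ x :: l, IsLabel P y) :
    ∃ (t : Tree ι) (e : t.Dec B), labels B.α t e = x :: l := by
  induction l generalizing x with
  | nil =>
    obtain ⟨i, hi⟩ := exists_index B (hl x List.mem_cons_self)
    refine ⟨leaf x.1, i, ?_⟩
    have : [(x.1, B.α x.1 i)] = [x] := by rw [hi]
    exact this
  | cons y l ih =>
    obtain ⟨t, e, he⟩ := ih y fun z hz => hl z (List.mem_cons_of_mem _ hz)
    obtain ⟨i, hi⟩ := exists_index B (hl x List.mem_cons_self)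
    refine ⟨node (leaf x.1) t, (i, e), ?_⟩
    have : [(x.1, B.α x.1 i)] ++ labels B.α t e = x :: y :: l := by rw [hi, he]; rfl
    exact this

end Tree

end Pool.Agent.W536.JJ
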