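import Pool.Agent.W536.RBad
import Pool.Agent.W536.JDefs
import Pool.Agent.W536.JEig

/-!
# Iterated products and their monomials
-/

open CategoryTheory AlgebraicGeometry

universe u v w

namespace Pool.Agent.W536.JJ

open Pool.Agent.H914 Pool.Agent.H914.VarClass Pool.Agent.H914.VarClass.Obj
  Pool.Agent.H914.WeilCohomology Pool.Agent.H281R3.HT Pool.Agent.W536.RR

variable {k : Type u} [Field k] {𝒱 : VarClass k} {ops : CycleOps 𝒱}
  {W : WeilCohomology.{u, v} ops} {X Y Z : 𝒱.Obj} {ι : Type w} {P : ι → Piece W} {q : ℕ}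

/-- The bracketed words in the indices. -/
inductive Tree (ι : Type w) : Type w
  | leaf (j : ι)
  | node (a b : Tree ι)

/-- Bases of eigenvectors of the pieces, and the dual bases. -/
structure EBasis (P : ι → Piece W) (q : ℕ) where
  n : ι → ℕ
  α : ∀ j, Fin (n j) → W.K
  b : ∀ j, Fin (n j) → W.H (P j).X
  b' : ∀ j, Fin (n j) → W.H (P j).X
  ne : ∀ j i, α j i ≠ 0
  eb : ∀ j i, IsEigenvectorIn (W.map (P j).f) (P j).V (α j i) (b j i)
  eb' : ∀ j i, IsEigenvectorIn (W.map (P j).f) (P j).V ((q : W.K) ^ (P j).d / α j i) (b' j i)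
  dual : ∀ j i k, W.tr (P j).X (b j i * b' j k * W.cl (P j).X (P j).z) = if i = k then 1 else 0
  span : ∀ j, (P j).V ≤ Submodule.span W.K (Set.range (b j))

lemma exists_eBasis (H : Hyp P q) : Nonempty (EBasis P q) := by
  choose n α b b' ne eb eb' dual span using fun j => exists_eigenbasis (K := W.K)
    (A := W.H (P j).X) H.hq (H.pol j).2
  exact ⟨⟨n, α, b, b', ne, eb, eb', dual, span⟩⟩

namespace Tree

variable (P) in
/-- The product of the varieties of the leaves. -/
noncomputable def obj : Tree ι → 𝒱.Obj
  | leaf j => (P j).X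
  | node a b => (obj a).prod (obj b)

lemma isProductOf (t : Tree ι) : IsProductOf (Set.range fun j => (P j).X) (t.obj P) := by
  induction t with
  | leaf j => exact IsProductOf.base ⟨j, rfl⟩
  | node a b ha hb => exact IsProductOf.prod ha hb

variable (B : EBasis P q)

/-- The choices of a basis vector for every leaf. -/
def Dec : Tree ι → Type
  | leaf j => Fin (B.n j)
  | node a b => Dec a × Dec b

noncomputable instance instFintypeDec : ∀ t : Tree ι, Fintype (t.Dec B)
  | leaf j => inferInstanceAs (Fintype (Fin (B.n j)))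
  | node a b => @instFintypeProd _ _ (instFintypeDec a) (instFintypeDec b)

variable {B}

/-- The external products. -/
noncomputable def mono (u : ∀ j, Fin (B.n j) → W.H (P j).X) :
    ∀ t : Tree ι, t.Dec B → W.H (t.obj P)
  | leaf j, i => u j i
  | node a b, e => W.map (fst (a.obj P) (b.obj P)) (mono u a e.1) *
      W.map (snd (a.obj P) (b.obj P)) (mono u b e.2)

variable (P) in
/-- The degree of the external products. -/
def deg : Tree ι → ℕ
  | leaf j => (P j).d
  | node a b => deg a + deg b

variable (P) in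
/-- The external product of the classes of the cycles. -/
noncomputable def cyc : ∀ t : Tree ι, W.H (t.obj P)
  | leaf j => W.cl (P j).X (P j).z
  | node a b => W.map (fst (a.obj P) (b.obj P)) (cyc a) * W.map (snd (a.obj P) (b.obj P)) (cyc b)

lemma mono_mem {u : ∀ j, Fin (B.n j) → W.H (P j).X}
    (hu : ∀ j i, u j i ∈ W.gr (P j).X (P j).d) (t : Tree ι) (e : t.Dec B) :
    mono u t e ∈ W.gr (t.obj P) (t.deg P) := by
  induction t with
  | leaf j => exact hu j e
  | node a b ha hb => exact W.mul_mem (W.map_mem _ (ha e.1)) (W.map_mem _ (hb e.2))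

lemma cyc_mem (H : Hyp P q) (t : Tree ι) : cyc P t ∈ algSpan W (t.obj P) := by
  induction t with
  | leaf j =>
    obtain ⟨c, -, hz, -⟩ := (H.pol j).codim
    exact cl_mem_algSpan hz
  | node a b ha hb => exact algSpan_mul (algSpan_map _ ha) (algSpan_map _ hb)

/-- The pairing of the monomials. -/
lemma pairing (H : Hyp P q) (t : Tree ι) : ∃ ε : W.K, ε ≠ 0 ∧
    (∀ e : t.Dec B, W.tr (t.obj P) (mono B.b t e * (mono B.b' t e * cyc P t)) = ε) ∧
    ∀ e e' : t.Dec B, e ≠ e' →
      W.tr (t.obj P) (mono B.b t e * (mono B.b' t e' * cyc P t)) = 0 := by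
  induction t with
  | leaf j =>
    have h1 : ∀ i : Fin (B.n j),
        W.tr (P j).X (B.b j i * (B.b' j i * W.cl (P j).X (P j).z)) = 1 := by
      intro i
      rw [← mul_assoc, B.dual, if_pos rfl]
    have h2 : ∀ i i' : Fin (B.n j), i ≠ i' →
        W.tr (P j).X (B.b j i * (B.b' j i' * W.cl (P j).X (P j).z)) = 0 := by
      intro i i' hi
      rw [← mul_assoc, B.dual, if_neg hi]
    exact ⟨1, one_ne_zero, h1, h2⟩
  | node a b ha hb =>
    obtain ⟨ε, hε, ha, ha'⟩ := ha
    obtain ⟨ε', hε', hb, hb'⟩ := hb
    have key : ∀ e e' : a.Dec B × b.Dec B,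
        W.tr ((a.obj P).prod (b.obj P)) (mono B.b (node a b) e * (mono B.b' (node a b) e' *
          cyc P (node a b))) = (-1) ^ (b.deg P * a.deg P) *
          (W.tr (a.obj P) (mono B.b a e.1 * (mono B.b' a e'.1 * cyc P a)) *
            W.tr (b.obj P) (mono B.b b e.2 * (mono B.b' b e'.2 * cyc P b))) := by
      intro e e'
      have hdb : ∀ j i, B.b j i ∈ W.gr (P j).X (P j).d := fun j i => H.deg j (B.eb j i).mem
      have hdb' : ∀ j i, B.b' j i ∈ W.gr (P j).X (P j).d := fun j i => H.deg j (B.eb' j i).mem
      set f := W.map (fst (a.obj P) (b.obj P)) with hf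
      set g := W.map (snd (a.obj P) (b.obj P)) with hg
      set A := mono B.b a e.1 with hA
      set A' := mono B.b' a e'.1 with hA'
      set C := mono B.b b e.2 with hC
      set C' := mono B.b' b e'.2 with hC'
      change W.tr ((a.obj P).prod (b.obj P))
        (f A * g C * (f A' * g C' * (f (cyc P a) * g (cyc P b)))) = _
      have e1 : g C * f A' = (-1 : W.K) ^ (b.deg P * a.deg P) • (f A' * g C) :=
        W.comm (W.map_mem _ (mono_mem hdb b e.2)) (W.map_mem _ (mono_mem hdb' a e'.1))
      have e2 : g C' * f (cyc P a) = f (cyc P a) * g C' :=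
        (algSpan_comm (algSpan_map _ (cyc_mem H a)) _).symm
      have e3 : f A * g C * (f A' * g C' * (f (cyc P a) * g (cyc P b))) =
          (-1 : W.K) ^ (b.deg P * a.deg P) • (f (A * (A' * cyc P a)) *
            g (C * (C' * cyc P b))) := by
        have e4 : g C' * (f (cyc P a) * g (cyc P b)) = f (cyc P a) * (g C' * g (cyc P b)) := by
          rw [← mul_assoc, e2, mul_assoc]
        have e5 : g C * f (cyc P a) = f (cyc P a) * g C :=
          (algSpan_comm (algSpan_map _ (cyc_mem H a)) _).symm
        have e6 : g C * (f A' * (f (cyc P a) * (g C' * g (cyc P b)))) =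
            (-1 : W.K) ^ (b.deg P * a.deg P) • (f A' * (f (cyc P a) *
              (g C * (g C' * g (cyc P b))))) := by
          rw [← mul_assoc (g C), e1, smul_mul_assoc, mul_assoc, ← mul_assoc (g C), e5, mul_assoc]
        rw [map_mul f, map_mul f, map_mul g, map_mul g, mul_assoc (f A'), e4, mul_assoc (f A),
          e6, mul_smul_comm]
        simp only [mul_assoc]
      rw [e3, map_smul, W.tr_prod, smul_eq_mul]
    refine ⟨(-1) ^ (b.deg P * a.deg P) * (ε * ε'),
      mul_ne_zero (pow_ne_zero _ (neg_ne_zero.2 one_ne_zero)) (mul_ne_zero hε hε'),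
      fun e => (key e e).trans (by rw [ha, hb]), fun e e' he => (key e e').trans ?_⟩
    by_cases h1 : e.1 = e'.1
    · have h2 : e.2 ≠ e'.2 := fun h2 => he (Prod.ext h1 h2)
      rw [hb' _ _ h2, mul_zero, mul_zero]
    · rw [ha' _ _ h1, zero_mul, mul_zero]

/-- The coordinates. -/
noncomputable def coords (u : ∀ j, Fin (B.n j) → W.H (P j).X) (β : ∀ j, Fin (B.n j) → W.K)
    (hu : ∀ j i, IsEigenvectorIn (W.map (P j).f) (P j).V (β j i) (u j i)) :
    ∀ t : Tree ι, t.Dec B → List (Coordinate P (t.obj P))
  | leaf j, i => [⟨⟨j, β j i, u j i, hu j i⟩, 𝟙 _⟩]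
  | node a b, e => (coords u β hu a e.1).map (Coordinate.comp (fst (a.obj P) (b.obj P))) ++
      (coords u β hu b e.2).map (Coordinate.comp (snd (a.obj P) (b.obj P)))

/-- The labels. -/
def labels (β : ∀ j, Fin (B.n j) → W.K) : ∀ t : Tree ι, t.Dec B → List (ι × W.K)
  | leaf j, i => [(j, β j i)]
  | node a b, e => labels β a e.1 ++ labels β b e.2

lemma coords_label (u : ∀ j, Fin (B.n j) → W.H (P j).X) (β : ∀ j, Fin (B.n j) → W.K)
    (hu : ∀ j i, IsEigenvectorIn (W.map (P j).f) (P j).V (β j i) (u j i)) (t : Tree ι)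
    (e : t.Dec B) : (coords u β hu t e).map Coordinate.label = labels β t e := by
  induction t with
  | leaf j => rfl
  | node a b ha hb =>
    have h1 := map_comp_label (fst (a.obj P) (b.obj P)) (coords u β hu a e.1)
    have h2 := map_comp_label (snd (a.obj P) (b.obj P)) (coords u β hu b e.2)
    rw [ha] at h1
    rw [hb] at h2
    have h3 : (coords u β hu (node a b) e).map Coordinate.label =
      ((coords u β hu a e.1).map (Coordinate.comp (fst (a.obj P) (b.obj P)))).map
        Coordinate.label ++ ((coords u β hu b e.2).map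
        (Coordinate.comp (snd (a.obj P) (b.obj P)))).map Coordinate.label := List.map_append
    rw [h3, h1, h2]
    rfl

lemma coords_prod (u : ∀ j, Fin (B.n j) → W.H (P j).X) (β : ∀ j, Fin (B.n j) → W.K)
    (hu : ∀ j i, IsEigenvectorIn (W.map (P j).f) (P j).V (β j i) (u j i)) (t : Tree ι)
    (e : t.Dec B) : ((coords u β hu t e).map Coordinate.ev).prod = mono u t e := by
  induction t with
  | leaf j =>
    have h1 : ∀ i, (([⟨⟨j, β j i, u j i, hu j i⟩, 𝟙 _⟩] : List (Coordinate P (P j).X)).map
        Coordinate.ev).prod = u j i := by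
      intro i
      rw [List.map_singleton, List.prod_singleton]
      exact W.map_id _ _
    exact h1 e
  | node a b ha hb =>
    have h1 := map_comp_ev (fst (a.obj P) (b.obj P)) (coords u β hu a e.1)
    have h2 := map_comp_ev (snd (a.obj P) (b.obj P)) (coords u β hu b e.2)
    rw [ha] at h1
    rw [hb] at h2
    have h3 : ((coords u β hu (node a b) e).map Coordinate.ev).prod =
      (((coords u β hu a e.1).map (Coordinate.comp (fst (a.obj P) (b.obj P)))).map
        Coordinate.ev ++ ((coords u β hu b e.2).map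
        (Coordinate.comp (snd (a.obj P) (b.obj P)))).map Coordinate.ev).prod := by
      rw [← List.map_append]
      rfl
    rw [h3, List.prod_append, h1, h2]
    rfl

/-- The values. -/
def val (β : ∀ j, Fin (B.n j) → W.K) : ∀ t : Tree ι, t.Dec B → (List Bool → ℕ) → W.K
  | leaf j, i, m => β j i ^ m []
  | node a b, e, m => val β a e.1 (fun p => m (false :: p)) * val β b e.2 (fun p => m (true :: p))

lemma val_zero (β : ∀ j, Fin (B.n j) → W.K) (t : Tree ι) (e : t.Dec B) :
    val β t e (fun _ => 0) = 1 := by
  induction t with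
  | leaf j => exact pow_zero _
  | node a b ha hb => exact (congrArg₂ (· * ·) (ha e.1) (hb e.2)).trans (one_mul 1)

lemma val_add (β : ∀ j, Fin (B.n j) → W.K) (t : Tree ι) (e : t.Dec B) :
    ∀ m m' : List Bool → ℕ, val β t e (fun p => m p + m' p) = val β t e m * val β t e m' := by
  induction t with
  | leaf j => exact fun _ _ => pow_add _ _ _
  | node a b ha hb =>
    intro m m'
    have h1 := ha e.1 (fun p => m (false :: p)) (fun p => m' (false :: p))
    have h2 := hb e.2 (fun p => m (true :: p)) (fun p => m' (true :: p))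
    have h3 : val β (node a b) e (fun p => m p + m' p) =
      val β a e.1 (fun p => m (false :: p) + m' (false :: p)) *
        val β b e.2 (fun p => m (true :: p) + m' (true :: p)) := rfl
    rw [h3, h1, h2, mul_mul_mul_comm]
    rfl

/-- The character. -/
def char (β : ∀ j, Fin (B.n j) → W.K) (t : Tree ι) (e : t.Dec B) :
    Multiplicative (List Bool → ℕ) →* W.K where
  toFun m := val β t e (Multiplicative.toAdd m)
  map_one' := val_zero β t e
  map_mul' _ _ := val_add β t e _ _

lemma labels_of_val {β β' : ∀ j, Fin (B.n j) → W.K} (t : Tree ι) (e e' : t.Dec B)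
    (h : ∀ m, val β t e m = val β' t e' m) : labels β t e = labels β' t e' := by
  induction t with
  | leaf j =>
    have h1 : β j e ^ 1 = β' j e' ^ 1 := h (fun _ => 1)
    rw [pow_one, pow_one] at h1
    have h2 : [(j, β j e)] = [(j, β' j e')] := by rw [h1]
    exact h2
  | node a b ha hb =>
    have h1 : ∀ m : List Bool → ℕ, val β a e.1 m = val β' a e'.1 m := by
      intro m
      have h2 := h (fun p => match p with | false :: p => m p | _ => 0)
      have h3 : val β a e.1 m * val β b e.2 (fun _ => 0) =
        val β' a e'.1 m * val β' b e'.2 (fun _ => 0) := h2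
      rwa [val_zero, val_zero, mul_one, mul_one] at h3
    have h1' : ∀ m : List Bool → ℕ, val β b e.2 m = val β' b e'.2 m := by
      intro m
      have h2 := h (fun p => match p with | true :: p => m p | _ => 0)
      have h3 : val β a e.1 (fun _ => 0) * val β b e.2 m =
        val β' a e'.1 (fun _ => 0) * val β' b e'.2 m := h2
      rwa [val_zero, val_zero, one_mul, one_mul] at h3
    exact congrArg₂ (· ++ ·) (ha _ _ h1) (hb _ _ h1')

lemma labels_dual (t : Tree ι) (e : t.Dec B) :
    labels (fun j i => (q : W.K) ^ (P j).d / B.α j i) t e =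
      (labels B.α t e).map (dualLabel P q) := by
  induction t with
  | leaf j => rfl
  | node a b ha hb =>
    exact (congrArg₂ (· ++ ·) (ha e.1) (hb e.2)).trans List.map_append.symm

lemma dual_dual (hq : (q : W.K) ≠ 0) (t : Tree ι) (e : t.Dec B) :
    ((labels B.α t e).map (dualLabel P q)).map (dualLabel P q) = labels B.α t e := by
  induction t with
  | leaf j =>
    have h1 : (q : W.K) ^ (P j).d / ((q : W.K) ^ (P j).d / B.α j e) = B.α j e := by
      have := B.ne j e
      have h2 : (q : W.K) ^ (P j).d ≠ 0 := pow_ne_zero _ hq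
      field_simp
    have h2 : [(j, (q : W.K) ^ (P j).d / ((q : W.K) ^ (P j).d / B.α j e))] =
      [(j, B.α j e)] := by rw [h1]
    exact h2
  | node a b ha hb =>
    have h1 : labels B.α (node a b) e = labels B.α a e.1 ++ labels B.α b e.2 := rfl
    rw [h1, List.map_append, List.map_append, ha, hb]

end Tree

end Pool.Agent.W536.JJ
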