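import Pool.Agent.W536.RDual

/-!
# Properties of the numerically trivial monomials
-/

open CategoryTheory AlgebraicGeometry

universe u v w

namespace Pool.Agent.W536.RR

open Pool.Agent.H914 Pool.Agent.H914.VarClass Pool.Agent.H914.VarClass.Obj
  Pool.Agent.H914.WeilCohomology Pool.Agent.H281R3.HT

variable {k : Type u} [Field k] {𝒱 : VarClass k} {ops : CycleOps 𝒱}
  {W : WeilCohomology.{u, v} ops} {X Y Z : 𝒱.Obj} {ι : Type w} {P : ι → Piece W} {q : ℕ}

lemma cl_iterate_pull (F : Y ⟶ Y) (m : ℕ) (z : Y.Cycles) :
    W.cl Y ((ops.pull F)^[m] z) = ((W.map F).toLinearMap ^ m) (W.cl Y z) := by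
  induction m with
  | zero => rfl
  | succ m ih =>
    rw [Function.iterate_succ_apply', W.cl_pull, ih, pow_succ', Module.End.mul_apply]
    rfl

lemma pow_eig {V : Type*} [AddCommGroup V] [Module W.K V] (T : Module.End W.K V) {a : V}
    {α : W.K} (h : T a = α • a) (m : ℕ) : (T ^ m) a = α ^ m • a := by
  induction m with
  | zero => simp
  | succ m ih => rw [pow_succ', Module.End.mul_apply, ih, map_smul, h, smul_smul, pow_succ]

/-- The Frobenius endomorphism on the combinations of algebraic classes. -/
lemma frob_algSpan {F : Y ⟶ Y} (hF : FrobeniusOnCycles W Y F q) {a : W.H Y}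
    (ha : a ∈ algSpan W Y) : ∀ i, (proj (W.isInternal Y) (2 * i + 1) a = 0) ∧
      ∃ m ≥ 1, ((W.map F).toLinearMap ^ m) (proj (W.isInternal Y) (2 * i) a) =
        (q : W.K) ^ (m * i) • proj (W.isInternal Y) (2 * i) a := by
  intro i
  refine algSpan_induction (p := fun a => (proj (W.isInternal Y) (2 * i + 1) a = 0) ∧
      ∃ m ≥ 1, ((W.map F).toLinearMap ^ m) (proj (W.isInternal Y) (2 * i) a) =
        (q : W.K) ^ (m * i) • proj (W.isInternal Y) (2 * i) a) ?_ ?_ ?_ ?_ ha
  · refine ⟨map_zero _, 1, le_rfl, ?_⟩
    rw [map_zero, map_zero, smul_zero]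
  · rintro a b ⟨h1, m, hm, h2⟩ ⟨h1', m', hm', h2'⟩
    refine ⟨by rw [map_add, h1, h1', add_zero], m * m', Nat.mul_pos hm hm', ?_⟩
    rw [map_add, map_add, smul_add]
    congr 1
    · rw [pow_mul, pow_eig _ h2, ← pow_mul]
      congr 2
      ring
    · rw [mul_comm m m', pow_mul, pow_eig _ h2', ← pow_mul]
      congr 2
      ring
  · rintro t a ⟨h1, m, hm, h2⟩
    refine ⟨by rw [map_smul, h1, smul_zero], m, hm, ?_⟩
    rw [map_smul, map_smul, h2, smul_comm]
  · intro j z hz
    refine ⟨proj_ne _ (W.cl_mem hz) (by omega), ?_⟩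
    by_cases hj : j = i
    · subst hj
      obtain ⟨m, hm, h1⟩ := hF j z hz
      refine ⟨m, hm, ?_⟩
      rw [proj_same _ (W.cl_mem hz), ← cl_iterate_pull, h1]
    · refine ⟨1, le_rfl, ?_⟩
      rw [proj_ne _ (W.cl_mem hz) (by omega), map_zero, smul_zero]

lemma Bad.tateRelation (H : Hyp P q)
    (hF : ∀ (Y : 𝒱.Obj) (F : Y ⟶ Y), IsProductEndo P Y F → FrobeniusOnCycles W Y F q)
    {s : Multiset (ι × W.K)} (hs : Bad P s) : TateRelation P q s := by
  obtain ⟨Y, F, l, h1, h2, h3⟩ := hs
  have h4 := prod_ev_mem H.deg l
  have h5 := h1.prod_ne_zero H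
  set E := (l.map Coordinate.ev).prod with hE
  set D := ((l.map Coordinate.label).map fun x => (P x.1).d).sum with hD
  have h6 := proj_same (W.isInternal Y) h4
  rcases Nat.even_or_odd' D with ⟨c, hc | hc⟩
  · obtain ⟨-, m, hm, h7⟩ := frob_algSpan (hF Y F h1.isProductEndo) h3.1 c
    rw [← hc, h6] at h7
    have h8 : ((W.map F).toLinearMap ^ m) E =
        (((l.map Coordinate.label).map Prod.snd).prod ^ m) • E := pow_eig _ h1.frob m
    refine ⟨c, m, hm, ?_, ?_⟩
    · rw [← h2, ← hc, hD]
      rfl
    · rw [h7] at h8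
      have h9 := smul_left_injective W.K h5 h8
      rw [← h2, h9]
      rfl
  · exfalso
    obtain ⟨h7, -⟩ := frob_algSpan (hF Y F h1.isProductEndo) h3.1 c
    rw [← hc, h6] at h7
    exact h5 h7

section Conj

variable (S : Conjugation W) (hS : ∀ j, ∀ v ∈ (P j).V, S.σ (P j).X v ∈ (P j).V)

/-- The conjugate eigenvector. -/
def EigenVec.conj (x : EigenVec P) : EigenVec P where
  j := x.j
  α := S.τ x.α
  v := S.σ (P x.j).X x.v
  prop := ⟨hS x.j x.v x.mem, fun h => x.ne ((S.isConjugation _).inj _ h), by
    rw [S.map (P x.j).f x.v, x.eig, (S.isConjugation _).smul]⟩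

/-- The conjugate coordinate. -/
def Coordinate.conj (c : Coordinate P Y) : Coordinate P Y := ⟨c.x.conj S hS, c.g⟩

lemma Full.conj {F : Y ⟶ Y} {l : List (Coordinate P Y)} (h : Full P Y F l) :
    Full P Y F (l.map (Coordinate.conj S hS)) := by
  induction h with
  | base x => exact Full.base (x.conj S hS)
  | @prod Y Z F G l l' _ _ h1 h2 =>
    have h3 := Full.prod h1 h2
    rw [List.map_map, List.map_map] at h3
    rw [List.map_append, List.map_map, List.map_map]
    exact h3

lemma prod_conj (l : List (Coordinate P Y)) :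
    ((l.map (Coordinate.conj S hS)).map Coordinate.ev).prod =
      S.σ Y (l.map Coordinate.ev).prod := by
  induction l with
  | nil => exact (conj_one S).symm
  | cons c l ih =>
    simp only [List.map_cons, List.prod_cons]
    rw [ih, (S.isConjugation Y).mul]
    congr 1
    exact S.map c.g c.x.v

include hS in
lemma Bad.conj {s : Multiset (ι × W.K)} (hs : Bad P s) : Bad P (s.map (conjLabel S.τ)) := by
  obtain ⟨Y, F, l, h1, h2, h3⟩ := hs
  refine ⟨Y, F, _, h1.conj S hS, ?_, ?_⟩
  · rw [← h2, Multiset.map_coe, List.map_map, List.map_map]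
    rfl
  · rw [prod_conj]
    exact conj_numZ S h3

end Conj

/-- The direct images of products of algebraic classes and pull-backs of eigenvectors. -/
def monomials (P : ι → Piece W) (Y : 𝒱.Obj) : Set (W.H Y) :=
  {y | ∃ (Q : 𝒱.Obj) (h : Q ⟶ Y) (n : W.H Q) (l : List (Coordinate P Q)), n ∈ algSpan W Q ∧
    y = W.push h (n * (l.map Coordinate.ev).prod)}

lemma mono_push {h : X ⟶ Y} {a : W.H X} (ha : a ∈ Submodule.span W.K (monomials P X)) :
    W.push h a ∈ Submodule.span W.K (monomials P Y) := by
  induction ha using Submodule.span_induction with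
  | mem a ha =>
    obtain ⟨Q, g, n, l, hn, rfl⟩ := ha
    exact Submodule.subset_span ⟨Q, g ≫ h, n, l, hn, (W.push_comp _ _ _).symm⟩
  | zero => rw [map_zero]; exact Submodule.zero_mem _
  | add x y _ _ hx hy => rw [map_add]; exact Submodule.add_mem _ hx hy
  | smul t x _ hx => rw [map_smul]; exact Submodule.smul_mem _ _ hx

lemma mono_map {h : X ⟶ Y} {a : W.H Y} (ha : a ∈ Submodule.span W.K (monomials P Y)) :
    W.map h a ∈ Submodule.span W.K (monomials P X) := by
  induction ha using Submodule.span_induction with
  | mem a ha =>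
    obtain ⟨Q, g, n, l, hn, rfl⟩ := ha
    obtain ⟨γ, hγ, h1⟩ := exists_map_push (W := W) h g
    refine Submodule.subset_span ⟨Q.prod X, snd Q X, γ * W.map (fst Q X) n,
      l.map (Coordinate.comp (fst Q X)), algSpan_mul hγ (algSpan_map _ hn), ?_⟩
    rw [h1, map_comp_ev, map_mul (W.map (fst Q X)), mul_assoc]
  | zero => rw [map_zero]; exact Submodule.zero_mem _
  | add x y _ _ hx hy => rw [map_add]; exact Submodule.add_mem _ hx hy
  | smul t x _ hx => rw [map_smul]; exact Submodule.smul_mem _ _ hx

/-- Multiplication by a product of an algebraic class and eigenvectors. -/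
lemma mono_mul_left {n : W.H Y} (hn : n ∈ algSpan W Y) (l : List (Coordinate P Y)) {a : W.H Y}
    (ha : a ∈ Submodule.span W.K (monomials P Y)) :
    n * (l.map Coordinate.ev).prod * a ∈ Submodule.span W.K (monomials P Y) := by
  induction ha using Submodule.span_induction with
  | mem a ha =>
    obtain ⟨Q, g, n', l', hn', rfl⟩ := ha
    refine Submodule.subset_span ⟨Q, g, W.map g n * n', l.map (Coordinate.comp g) ++ l',
      algSpan_mul (algSpan_map _ hn) hn', ?_⟩
    rw [mul_push', map_mul (W.map g), List.map_append, List.prod_append, map_comp_ev]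
    congr 1
    rw [mul_assoc, mul_assoc, ← mul_assoc (W.map g (l.map Coordinate.ev).prod) n',
      ← algSpan_comm hn' (W.map g (l.map Coordinate.ev).prod), mul_assoc]
  | zero => rw [mul_zero]; exact Submodule.zero_mem _
  | add x y _ _ hx hy => rw [mul_add]; exact Submodule.add_mem _ hx hy
  | smul t x _ hx => rw [mul_smul_comm]; exact Submodule.smul_mem _ _ hx

lemma mono_mul {a b : W.H Y} (ha : a ∈ Submodule.span W.K (monomials P Y))
    (hb : b ∈ Submodule.span W.K (monomials P Y)) :
    a * b ∈ Submodule.span W.K (monomials P Y) := by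
  induction ha using Submodule.span_induction with
  | mem a ha =>
    obtain ⟨Q, g, n, l, hn, rfl⟩ := ha
    rw [← W.push_mul]
    exact mono_push (mono_mul_left hn l (mono_map hb))
  | zero => rw [zero_mul]; exact Submodule.zero_mem _
  | add x y _ _ hx hy => rw [add_mul]; exact Submodule.add_mem _ hx hy
  | smul t x _ hx => rw [smul_mul_assoc]; exact Submodule.smul_mem _ _ hx

/-- All generated classes are combinations of direct images of products of algebraic classes and
pull-backs of eigenvectors. -/
lemma isClosedFamily (H : Hyp P q) :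
    IsClosedFamily P fun Y => Submodule.span W.K (monomials P Y) where
  vec j := by
    intro v hv
    have h1 := (H.pol j).eigen hv
    clear hv
    induction h1 using Submodule.span_induction with
    | mem v hv =>
      obtain ⟨hv, α, hα⟩ := hv
      by_cases h0 : v = 0
      · rw [h0]; exact Submodule.zero_mem _
      · refine Submodule.subset_span ⟨_, 𝟙 _, 1, [⟨⟨j, α, v, ⟨hv, h0, hα⟩⟩, 𝟙 _⟩],
          one_mem_algSpan, ?_⟩
        rw [W.push_id, one_mul, List.map_singleton, List.prod_singleton]
        exact (W.map_id _ _).symm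
    | zero => exact Submodule.zero_mem _
    | add x y _ _ hx hy => exact Submodule.add_mem _ hx hy
    | smul t x _ hx => exact Submodule.smul_mem _ _ hx
  alg Y := by
    intro a ha
    refine Submodule.subset_span ⟨_, 𝟙 _, _, [], ha, ?_⟩
    rw [W.push_id, List.map_nil, List.prod_nil, mul_one]
  mul Y := fun a ha b hb => mono_mul ha hb
  map g := fun a ha => mono_map ha
  push g := fun a ha => mono_push ha

/-- **The reduction to external products of eigenvectors.** -/
theorem exists_bad (H : Hyp P q)
    (hd : ∀ x, IsLabel P x → AlgebraicMonomials P {x, dualLabel P q x})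
    (hY : IsGenerated P Y) {x : W.H Y} (hx : x ∈ numZ W Y) (h0 : x ≠ 0) :
    ∃ s, Bad P s := by
  -- a monomial which pairs nontrivially with the class
  obtain ⟨Q, h, n, l, hn, hne⟩ : ∃ (Q : 𝒱.Obj) (h : Q ⟶ Y) (n : W.H Q)
      (l : List (Coordinate P Q)), n ∈ algSpan W Q ∧
      W.tr Y (x * W.push h (n * (l.map Coordinate.ev).prod)) ≠ 0 := by
    by_contra hcon
    push Not at hcon
    apply h0
    apply W.nondeg
    intro b
    have h1 := hY _ (isClosedFamily H) b
    induction h1 using Submodule.span_induction with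
    | mem b hb =>
      obtain ⟨Q, h, n, l, hn, rfl⟩ := hb
      exact hcon Q h n l hn
    | zero => rw [mul_zero, map_zero]
    | add x y _ _ hx hy => rw [mul_add, map_add, hx, hy, add_zero]
    | smul t x _ hx => rw [mul_smul_comm, map_smul, hx, smul_zero]
  rw [algSpan_comm hx.1, W.tr_push, ← algSpan_comm (algSpan_map h hx.1), ← mul_assoc] at hne
  have hx' : W.map h x * n ∈ numZ W Q := numZ_mul (numZ_map h hx) hn
  cases l with
  | nil =>
    exfalso
    apply hne
    rw [List.map_nil, List.prod_nil]
    exact mem_transc.1 hx'.2 _ one_mem_algSpan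
  | cons c l =>
    obtain ⟨R, F, M, hfull, hM⟩ := exists_full (c.x.dual H) (l.map fun c => c.x.dual H)
    have hM' : M.map Coordinate.x = (c :: l).map fun c => c.x.dual H := hM
    set L := c :: l with hL
    refine ⟨_, R, F, M, hfull, rfl, ?_⟩
    -- the labels of the dual coordinates
    have hlab : M.map Coordinate.label = (L.map Coordinate.label).map (dualLabel P q) := by
      have e1 : M.map Coordinate.label = (M.map Coordinate.x).map fun x => (x.j, x.α) := by
        rw [List.map_map]
        rfl
      rw [e1, hM', List.map_map, List.map_map]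
      rfl
    -- the product is algebraic
    have hN : W.map (fst Q R) (L.map Coordinate.ev).prod *
        W.map (snd Q R) (M.map Coordinate.ev).prod ∈ algSpan W (Q.prod R) := by
      rw [← map_comp_ev, ← map_comp_ev, ← List.prod_append, ← List.map_append]
      apply prod_mem_algSpan H.deg
        ((L.map Coordinate.label : Multiset (ι × W.K)).map fun x => {x, dualLabel P q x})
      · intro r hr
        obtain ⟨x, hx, rfl⟩ := Multiset.mem_map.1 hr
        rw [Multiset.mem_coe, List.mem_map] at hx
        obtain ⟨c, -, rfl⟩ := hx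
        exact hd _ ⟨c.x.v, c.x.prop⟩
      · rw [List.map_append, map_comp_label, map_comp_label, hlab]
        generalize L.map Coordinate.label = L'
        clear hlab hM' hM hL
        rw [← Multiset.coe_add, ← Multiset.map_coe]
        generalize (L' : Multiset (ι × W.K)) = s
        induction s using Multiset.induction_on with
        | empty => simp
        | cons a s ih =>
          rw [Multiset.map_cons, Multiset.map_cons, Multiset.sum_cons, ← ih,
            Multiset.insert_eq_cons]
          rw [Multiset.cons_add, Multiset.cons_add, Multiset.add_cons,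
            Multiset.singleton_add]
    have h2 := numZ_push (snd Q R) (numZ_mul (numZ_map (fst Q R) hx') hN)
    rw [← mul_assoc, ← map_mul, W.push_snd] at h2
    exact (Submodule.smul_mem_iff _ hne).1 h2

end Pool.Agent.W536.RR
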