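import Pool.Agent.H281R3.HT.FDef
import Pool.Agent.H281R3.HT.Defs

/-!
# Rational relations between the eigenvalues of Frobenius: definitions
-/

open CategoryTheory AlgebraicGeometry

universe u v w w'

namespace Pool.Agent.W536.RR

section Alg

variable {K A B : Type*} [Field K] [Ring A] [Algebra K A] [Ring B] [Algebra K B]

/-- The vector `v` is an eigenvector of `F` in the subspace `V`, for the eigenvalue `α`. -/
structure IsEigenvectorIn (F : A →ₐ[K] A) (V : Submodule K A) (α : K) (v : A) : Prop where
  mem : v ∈ V
  ne : v ≠ 0
  eig : F v = α • v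

/-- The subspace `V` lies in degree `d ≤ n` and is spanned by eigenvectors of `F`, the map `F`
multiplies the orientation `tr` by `q ^ n`, the class `ζ` is multiplied by `q ^ (n - d)` by `F`,
and the form `tr (v w ζ)` is nondegenerate on `V`. -/
structure IsPolarizedSpace (gr : ℕ → Submodule K A) (n : ℕ) (tr : A →ₗ[K] K) (F : A →ₐ[K] A)
    (q d : ℕ) (V : Submodule K A) (ζ : A) : Prop where
  le : d ≤ n
  deg : V ≤ gr d
  eigen : V ≤ Submodule.span K {v | v ∈ V ∧ ∃ α : K, F v = α • v}
  degree : ∀ a, tr (F a) = (q : K) ^ n * tr a
  cyc : F ζ = (q : K) ^ (n - d) • ζ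
  nondeg : ∀ v ∈ V, v ≠ 0 → ∃ w ∈ V, tr (v * w * ζ) ≠ 0

/-- The subspace is stable under the map. -/
def StableBy (σ : A → A) (V : Submodule K A) : Prop := ∀ v ∈ V, σ v ∈ V

/-- The subspace is stable under products. -/
def MulClosed (V : Submodule K A) : Prop := ∀ a ∈ V, ∀ b ∈ V, a * b ∈ V

/-- The linear map maps the subspace `V` to the subspace `V'`. -/
def PushesInto (F : A →ₗ[K] B) (V : Submodule K A) (V' : Submodule K B) : Prop :=
  ∀ a ∈ V, F a ∈ V'

/-- The homomorphism maps the subspace `V` to the subspace `V'`. -/
def PullsInto (F : A →ₐ[K] B) (V : Submodule K A) (V' : Submodule K B) : Prop :=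
  ∀ a ∈ V, F a ∈ V'

end Alg

open Pool.Agent.H914 Pool.Agent.H914.VarClass Pool.Agent.H914.VarClass.Obj
  Pool.Agent.H914.WeilCohomology Pool.Agent.H281R3.HT

variable {k : Type u} [Field k] {𝒱 : VarClass k} {ops : CycleOps 𝒱}

/-- A piece of cohomology: a variety `X` with an endomorphism `f` (in the intended use: the
Frobenius endomorphism), a degree `d`, a subspace `V` of the cohomology of `X` and a cycle `z` on
`X`. -/
structure Piece (W : WeilCohomology.{u, v} ops) where
  /-- the variety -/
  X : 𝒱.Obj
  /-- the endomorphism -/
  f : X ⟶ X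
  /-- the degree -/
  d : ℕ
  /-- the subspace of the cohomology -/
  V : Submodule W.K (W.H X)
  /-- the cycle -/
  z : X.Cycles

variable {W : WeilCohomology.{u, v} ops}

/-- The space `V` lies in `H^d(X)` and is spanned by eigenvectors of `f^*`, the endomorphism `f`
has degree `q ^ dim X`, the cycle `z` has codimension `dim X - d`, its class is multiplied by
`q ^ (dim X - d)` by `f^*`, and the form `tr (v w [z])` is nondegenerate on `V`. -/
def Piece.IsPolarized (P : Piece W) (q : ℕ) : Prop :=
  P.X.IsCyc (P.X.dim - P.d) P.z ∧
    IsPolarizedSpace (W.gr P.X) P.X.dim (W.tr P.X) (W.map P.f) q P.d P.V (W.cl P.X P.z)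

section

variable {ι : Type w} (P : ι → Piece W)

/-- The label `(j, α)`: the number `α` is an eigenvalue of `f^*` on `V`, for the piece `j`. -/
def IsLabel (x : ι × W.K) : Prop :=
  ∃ v, IsEigenvectorIn (W.map (P x.1).f) (P x.1).V x.2 v

/-- The dual label `(j, q ^ d / α)`. -/
noncomputable def dualLabel (q : ℕ) (x : ι × W.K) : ι × W.K :=
  (x.1, (q : W.K) ^ (P x.1).d / x.2)

/-- The label `(j, τ α)`. -/
def conjLabel (τ : W.K →+* W.K) (x : ι × W.K) : ι × W.K := (x.1, τ x.2)

/-- The multiset of labels is a Tate relation: the degrees add up to an even number `2 c`, and the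
product of the numbers is `q ^ c` up to a root of unity. -/
def TateRelation (q : ℕ) (s : Multiset (ι × W.K)) : Prop :=
  ∃ c m : ℕ, 1 ≤ m ∧ (s.map (fun x => (P x.1).d)).sum = 2 * c ∧
    (s.map Prod.snd).prod ^ m = (q : W.K) ^ (m * c)

/-- A rational relation: a multiset of labels which is a Tate relation and is stable under all
conjugations. -/
def RationalRelation {κ : Type w'} (S : κ → Conjugation W) (q : ℕ)
    (s : Multiset (ι × W.K)) : Prop :=
  (∀ x ∈ s, IsLabel P x) ∧ TateRelation P q s ∧ ∀ i, s.map (conjLabel (S i).τ) = s

/-- An eigenvector in the space `V` of one of the pieces. -/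
structure EigenVec where
  /-- the piece -/
  j : ι
  /-- the eigenvalue -/
  α : W.K
  /-- the eigenvector -/
  v : W.H (P j).X
  prop : IsEigenvectorIn (W.map (P j).f) (P j).V α v

/-- A morphism to the variety of one of the pieces, with an eigenvector for this piece. -/
structure Coordinate (Y : 𝒱.Obj) where
  /-- the piece and the eigenvector -/
  x : EigenVec P
  /-- the morphism -/
  g : Y ⟶ (P x.j).X

variable {P} in
/-- The label of a coordinate: the piece and the eigenvalue. -/
def Coordinate.label {Y : 𝒱.Obj} (c : Coordinate P Y) : ι × W.K := (c.x.j, c.x.α)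

variable {P} in
/-- The pull-back of the eigenvector. -/
def Coordinate.ev {Y : 𝒱.Obj} (c : Coordinate P Y) : W.H Y := W.map c.g c.x.v

/-- The monomials with the multiset of labels `r` are algebraic: for all varieties `Y` and all
morphisms `g i` from `Y` to the varieties of the pieces with eigenvectors `v i` for these pieces,
such that the multiset of the labels is `r`, the product of the classes `g i^* (v i)` is a linear
combination of algebraic classes on `Y`, with coefficients in the coefficient field of the
cohomology. -/
def AlgebraicMonomials (r : Multiset (ι × W.K)) : Prop :=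
  ∀ (Y : 𝒱.Obj) (l : List (Coordinate P Y)),
    ((l.map Coordinate.label : List (ι × W.K)) : Multiset (ι × W.K)) = r →
    (l.map Coordinate.ev).prod ∈ algSpan W Y

/-- The multiset `r` of labels is an algebraic relation: the monomials with the labels `r` are
algebraic, and so are the monomials with the dual labels. -/
def AlgebraicRelation (q : ℕ) (r : Multiset (ι × W.K)) : Prop :=
  (∀ x ∈ r, IsLabel P x) ∧ AlgebraicMonomials P r ∧ AlgebraicMonomials P (r.map (dualLabel P q))

/-- The multiset `s` lies in the group generated by the algebraic relations: it is the difference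
of two sums of algebraic relations. -/
def InAlgebraicGroup (q : ℕ) (s : Multiset (ι × W.K)) : Prop :=
  ∃ t t' : Multiset (Multiset (ι × W.K)), s + t.sum = t'.sum ∧
    ∀ r ∈ t + t', AlgebraicRelation P q r

/-- The iterated products of the varieties of the pieces (with any bracketing and any
repetitions), with the product endomorphisms. -/
inductive IsProductEndo : (Y : 𝒱.Obj) → (Y ⟶ Y) → Prop
  | base (j : ι) : IsProductEndo (P j).X (P j).f
  | prod {Y Z : 𝒱.Obj} {F : Y ⟶ Y} {G : Z ⟶ Z} : IsProductEndo Y F → IsProductEndo Z G →
      IsProductEndo (Y.prod Z) (Obj.lift (fst Y Z ≫ F) (snd Y Z ≫ G))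

/-- The pieces are polarized, and the product endomorphisms of all iterated products of their
varieties act on the algebraic classes like Frobenius endomorphisms. -/
structure IsFrobeniusFamily (q : ℕ) : Prop where
  pos : q ≠ 0
  pol : ∀ j, (P j).IsPolarized q
  frob : ∀ Y F, IsProductEndo P Y F → FrobeniusOnCycles W Y F q

/-- The spaces `V` of all pieces are stable under the conjugation. -/
def StableUnder (S : Conjugation W) : Prop := ∀ j, StableBy (S.σ (P j).X) (P j).V

/-- The family of subspaces `C Y` of the cohomology of all varieties `Y` contains the spaces `V`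
of the pieces and all algebraic classes, and it is stable under cup products, pull-backs and
push-forwards. -/
structure IsClosedFamily (C : ∀ Y : 𝒱.Obj, Submodule W.K (W.H Y)) : Prop where
  vec : ∀ j, (P j).V ≤ C (P j).X
  alg : ∀ Y, algSpan W Y ≤ C Y
  mul : ∀ Y, MulClosed (C Y)
  map : ∀ {Y Z : 𝒱.Obj} (g : Y ⟶ Z), PullsInto (W.map g) (C Z) (C Y)
  push : ∀ {Y Z : 𝒱.Obj} (g : Y ⟶ Z), PushesInto (W.push g) (C Y) (C Z)

/-- The whole cohomology of the variety `Y` is generated by the spaces `V` of the pieces under
algebraic operations: it is contained in every family of subspaces which contains these spaces and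
all algebraic classes and which is stable under cup products, pull-backs and push-forwards. -/
def IsGenerated (Y : 𝒱.Obj) : Prop := ∀ C, IsClosedFamily P C → ∀ y, y ∈ C Y

end

end Pool.Agent.W536.RR
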