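import Pool.Agent.W536.RMono

/-!
# Dual eigenvectors, and numerically trivial monomials
-/

open CategoryTheory AlgebraicGeometry

universe u v w

namespace Pool.Agent.W536.RR

open Pool.Agent.H914 Pool.Agent.H914.VarClass Pool.Agent.H914.VarClass.Obj
  Pool.Agent.H914.WeilCohomology Pool.Agent.H281R3.HT

variable {k : Type u} [Field k] {𝒱 : VarClass k} {ops : CycleOps 𝒱}
  {W : WeilCohomology.{u, v} ops} {X Y Z : 𝒱.Obj} {ι : Type w} {P : ι → Piece W} {q : ℕ}

lemma Hyp.qK (H : Hyp P q) : (q : W.K) ≠ 0 := Nat.cast_ne_zero.2 H.hq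

lemma Hyp.deg (H : Hyp P q) : ∀ j, (P j).V ≤ W.gr (P j).X (P j).d := fun j => (H.pol j).deg

lemma exists_dual (H : Hyp P q) (x : EigenVec P) : ∃ w ∈ (P x.j).V, w ≠ 0 ∧
    W.map (P x.j).f w = ((q : W.K) ^ (P x.j).d / x.α) • w ∧
    W.tr (P x.j).X (x.v * w * W.cl (P x.j).X (P x.j).z) ≠ 0 := by
  obtain ⟨w, hw, hne⟩ := (H.pol x.j).nondeg x.v x.mem x.ne
  obtain ⟨u, hu, β, hβ, hune⟩ : ∃ u ∈ (P x.j).V, ∃ β : W.K, W.map (P x.j).f u = β • u ∧
      W.tr (P x.j).X (x.v * u * W.cl (P x.j).X (P x.j).z) ≠ 0 := by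
    by_contra hcon
    push Not at hcon
    apply hne
    have h1 := (H.pol x.j).eigen hw
    clear hne hw
    induction h1 using Submodule.span_induction with
    | mem u hu => exact hcon u hu.1 hu.2.choose hu.2.choose_spec
    | zero => rw [mul_zero, zero_mul, map_zero]
    | add a b _ _ ha hb => rw [mul_add, add_mul, map_add, ha, hb, add_zero]
    | smul t a _ ha => rw [mul_smul_comm, smul_mul_assoc, map_smul, ha, smul_zero]
  obtain ⟨c, hc, -, hz⟩ := (H.pol x.j).codim
  have h1 := (H.pol x.j).degree (x.v * u * W.cl (P x.j).X (P x.j).z)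
  have h2 : W.map (P x.j).f (x.v * u * W.cl (P x.j).X (P x.j).z) =
      (x.α * β * (q : W.K) ^ c) • (x.v * u * W.cl (P x.j).X (P x.j).z) := by
    rw [map_mul (W.map (P x.j).f), map_mul (W.map (P x.j).f), x.eig, hβ, hz,
      smul_mul_smul_comm, smul_mul_smul_comm]
  rw [h2, map_smul, smul_eq_mul] at h1
  have h3 := mul_right_cancel₀ hune h1
  rw [← hc, pow_add, mul_comm ((q : W.K) ^ c)] at h3
  have h4 : x.α * β = (q : W.K) ^ (P x.j).d := mul_right_cancel₀ (pow_ne_zero c H.qK) h3
  have h5 : x.α ≠ 0 := by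
    intro h0
    rw [h0, zero_mul] at h4
    exact pow_ne_zero _ H.qK h4.symm
  refine ⟨u, hu, ?_, ?_, hune⟩
  · intro h0
    apply hune
    rw [h0, mul_zero, zero_mul, map_zero]
  · rw [hβ, ← h4, mul_div_cancel_left₀ _ h5]

/-- The vector of the dual eigenvector. -/
noncomputable def dualVec (H : Hyp P q) (x : EigenVec P) : W.H (P x.j).X :=
  (exists_dual H x).choose

/-- The dual eigenvector. -/
noncomputable def EigenVec.dual (H : Hyp P q) (x : EigenVec P) : EigenVec P where
  j := x.j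
  α := (q : W.K) ^ (P x.j).d / x.α
  v := dualVec H x
  prop := ⟨(exists_dual H x).choose_spec.1, (exists_dual H x).choose_spec.2.1,
    (exists_dual H x).choose_spec.2.2.1⟩

lemma EigenVec.tr_dual (H : Hyp P q) (x : EigenVec P) :
    W.tr (P x.j).X (x.v * dualVec H x * W.cl (P x.j).X (P x.j).z) ≠ 0 :=
  (exists_dual H x).choose_spec.2.2.2

/-- The dual coordinate. -/
noncomputable def Coordinate.dual (H : Hyp P q) (c : Coordinate P Y) : Coordinate P Y :=
  ⟨c.x.dual H, c.g⟩

lemma Coordinate.dual_label (H : Hyp P q) (c : Coordinate P Y) :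
    (c.dual H).label = dualLabel P q c.label := rfl

/-- The class of the cycle. -/
noncomputable def Coordinate.cyc (c : Coordinate P Y) : W.H Y :=
  W.map c.g (W.cl (P c.x.j).X (P c.x.j).z)

lemma Coordinate.cyc_mem (H : Hyp P q) (c : Coordinate P Y) : c.cyc ∈ algSpan W Y := by
  obtain ⟨m, -, hz, -⟩ := (H.pol c.x.j).codim
  exact algSpan_map _ (cl_mem_algSpan hz)

lemma Coordinate.cyc_homog (H : Hyp P q) (c : Coordinate P Y) : Homog c.cyc := by
  obtain ⟨m, -, hz, -⟩ := (H.pol c.x.j).codim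
  exact ⟨_, W.map_mem _ (W.cl_mem hz)⟩

lemma prod_cyc_mem (H : Hyp P q) (l : List (Coordinate P Y)) :
    (l.map Coordinate.cyc).prod ∈ algSpan W Y := by
  induction l with
  | nil => exact one_mem_algSpan
  | cons c l ih =>
    rw [List.map_cons, List.prod_cons]
    exact algSpan_mul (c.cyc_mem H) ih

/-- An external product of eigenvectors pairs nontrivially with the external product of the dual
eigenvectors. -/
lemma Full.pairing (H : Hyp P q) {F : Y ⟶ Y} {l : List (Coordinate P Y)} (h : Full P Y F l) :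
    W.tr Y ((l.map Coordinate.ev).prod * (((l.map (Coordinate.dual H)).map Coordinate.ev).prod *
      (l.map Coordinate.cyc).prod)) ≠ 0 := by
  set φ : ∀ x : EigenVec P, W.H (P x.j).X := fun x =>
    x.v * dualVec H x * W.cl (P x.j).X (P x.j).z with hφ
  have h1 := h.tr φ
  have h2 : (l.map fun c => W.map c.g (φ c.x)) =
      l.map fun c => c.ev * (c.dual H).ev * c.cyc := by
    apply List.map_congr_left
    intro c _
    rw [hφ]
    beta_reduce
    rw [map_mul (W.map c.g), map_mul (W.map c.g)]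
    rfl
  have h3 : (l.map fun c => W.tr (P c.x.j).X (φ c.x)).prod ≠ 0 := by
    apply List.prod_ne_zero
    intro h0
    obtain ⟨c, -, hc⟩ := List.mem_map.1 h0
    exact c.x.tr_dual H hc
  rw [← h1, h2] at h3
  rw [← mul_assoc, List.map_map]
  have ha : ∀ c : Coordinate P Y, Homog c.ev := fun c => c.homog H.deg
  have hb : ∀ c : Coordinate P Y, Homog (Coordinate.ev (c.dual H)) :=
    fun c => (c.dual H).homog H.deg
  have e1 := mul_prod_prod l Coordinate.ev (Coordinate.ev ∘ Coordinate.dual H) ha hb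
  have e2 := mul_prod_prod l (fun c => c.ev * (Coordinate.ev ∘ Coordinate.dual H) c)
    Coordinate.cyc (fun c => (ha c).mul (hb c)) (fun c => c.cyc_homog H)
  change _ ≠ _ at h3
  rcases e1 with e1 | e1 <;> rcases e2 with e2 | e2
  · rw [e1, e2]; exact h3
  · rw [e1, e2, map_neg]; exact neg_ne_zero.2 h3
  · rw [e1, neg_mul, e2, map_neg]; exact neg_ne_zero.2 h3
  · rw [e1, neg_mul, e2, neg_neg]; exact h3

lemma Full.prod_ne_zero (H : Hyp P q) {F : Y ⟶ Y} {l : List (Coordinate P Y)}
    (h : Full P Y F l) : (l.map Coordinate.ev).prod ≠ 0 := by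
  intro h0
  apply h.pairing H
  rw [h0, zero_mul, map_zero]

/-- The multiset of labels is the multiset of labels of a numerically trivial external product of
eigenvectors. -/
def Bad (P : ι → Piece W) (s : Multiset (ι × W.K)) : Prop :=
  ∃ (Y : 𝒱.Obj) (F : Y ⟶ Y) (l : List (Coordinate P Y)), Full P Y F l ∧
    ((l.map Coordinate.label : List (ι × W.K)) : Multiset (ι × W.K)) = s ∧
    (l.map Coordinate.ev).prod ∈ numZ W Y

lemma Bad.add {s t : Multiset (ι × W.K)} (hs : Bad P s) (ht : Bad P t) : Bad P (s + t) := by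
  obtain ⟨Y, F, l, h1, h2, h3⟩ := hs
  obtain ⟨Z, G, l', h1', h2', h3'⟩ := ht
  refine ⟨_, _, _, Full.prod h1 h1', ?_, ?_⟩
  · rw [List.map_append, map_comp_label, map_comp_label, ← h2, ← h2']
    rfl
  · rw [List.map_append, List.prod_append, map_comp_ev, map_comp_ev]
    exact numZ_mul (numZ_map _ h3) (algSpan_map _ h3'.1)

lemma Bad.isLabel {s : Multiset (ι × W.K)} (hs : Bad P s) : ∀ x ∈ s, IsLabel P x := by
  obtain ⟨Y, F, l, -, h2, -⟩ := hs
  intro x hx
  rw [← h2, Multiset.mem_coe, List.mem_map] at hx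
  obtain ⟨c, -, rfl⟩ := hx
  exact ⟨c.x.v, c.x.prop⟩

/-- A sum of relations whose duals are algebraic is not bad. -/
lemma not_bad (H : Hyp P q) (t : Multiset (Multiset (ι × W.K)))
    (ht : ∀ r ∈ t, AlgebraicMonomials P (r.map (dualLabel P q))) : ¬ Bad P t.sum := by
  rintro ⟨Y, F, l, h1, h2, h3⟩
  apply h1.pairing H
  apply mem_transc.1 h3.2
  refine algSpan_mul ?_ (prod_cyc_mem H l)
  apply prod_mem_algSpan H.deg (t.map (Multiset.map (dualLabel P q)))
  · intro r hr
    obtain ⟨r', hr', rfl⟩ := Multiset.mem_map.1 hr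
    exact ht r' hr'
  · have e1 : ((l.map (Coordinate.dual H)).map Coordinate.label) =
        (l.map Coordinate.label).map (dualLabel P q) := by
      rw [List.map_map, List.map_map]
      rfl
    rw [e1, ← Multiset.map_coe, h2]
    exact map_multiset_sum (Multiset.mapAddMonoidHom (dualLabel P q)) t

lemma exists_list {r : Multiset (ι × W.K)} (hr : ∀ x ∈ r, IsLabel P x) :
    ∃ L : List (EigenVec P), ((L.map fun x => (x.j, x.α) : List (ι × W.K)) :
      Multiset (ι × W.K)) = r := by
  induction r using Multiset.induction_on with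
  | empty => exact ⟨[], rfl⟩
  | cons x r ih =>
    obtain ⟨L, hL⟩ := ih fun y hy => hr y (Multiset.mem_cons_of_mem hy)
    obtain ⟨v, hv⟩ := hr x (Multiset.mem_cons_self x r)
    refine ⟨⟨x.1, x.2, v, hv⟩ :: L, ?_⟩
    rw [← hL, List.map_cons, ← Multiset.cons_coe]

/-- Adding algebraic relations to a bad multiset of labels gives a bad one. -/
lemma Bad.add_alg (H : Hyp P q) {s : Multiset (ι × W.K)} (hs : Bad P s)
    (t : Multiset (Multiset (ι × W.K))) (ht : ∀ r ∈ t, (∀ x ∈ r, IsLabel P x) ∧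
      AlgebraicMonomials P r) : Bad P (s + t.sum) := by
  obtain ⟨L, hL⟩ : ∃ L : List (EigenVec P), ((L.map fun x => (x.j, x.α) : List (ι × W.K)) :
      Multiset (ι × W.K)) = t.sum := by
    apply exists_list
    intro x hx
    obtain ⟨r, hr, hx⟩ := Multiset.mem_join.1 hx
    exact (ht r hr).1 x hx
  cases L with
  | nil =>
    rw [← hL]
    rw [List.map_nil, Multiset.coe_nil, add_zero]
    exact hs
  | cons x L =>
    obtain ⟨Z, G, M, hM, hMx⟩ := exists_full x L
    have h4 : ((M.map Coordinate.label : List (ι × W.K)) : Multiset (ι × W.K)) = t.sum := by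
      rw [← hL, ← hMx, List.map_map]
      rfl
    have h5 := prod_mem_algSpan H.deg t (fun r hr => (ht r hr).2) M h4
    obtain ⟨Y, F, l, h1, h2, h3⟩ := hs
    refine ⟨_, _, _, Full.prod h1 hM, ?_, ?_⟩
    · rw [List.map_append, map_comp_label, map_comp_label, ← h2, ← h4]
      rfl
    · rw [List.map_append, List.prod_append, map_comp_ev, map_comp_ev]
      exact numZ_mul (numZ_map _ h3) (algSpan_map _ h5)

lemma Bad.nsmul {s : Multiset (ι × W.K)} (hs : Bad P s) {m : ℕ} (hm : 1 ≤ m) :
    Bad P (m • s) := by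
  induction m, hm using Nat.le_induction with
  | base => rwa [one_nsmul]
  | succ m _ ih =>
    rw [succ_nsmul]
    exact ih.add hs

end Pool.Agent.W536.RR
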