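import Pool.Agent.W536.RBad

/-!
# Conjecture D from the triviality of the rational relations
-/

open CategoryTheory AlgebraicGeometry

universe u v w w'

namespace Pool.Agent.W536.RR

open Pool.Agent.H914 Pool.Agent.H914.VarClass Pool.Agent.H914.VarClass.Obj
  Pool.Agent.H914.WeilCohomology Pool.Agent.H281R3.HT

variable {k : Type u} [Field k] {𝒱 : VarClass k} {ops : CycleOps 𝒱}
  {W : WeilCohomology.{u, v} ops} {X Y Z : 𝒱.Obj} {ι : Type w} {P : ι → Piece W} {q : ℕ}

/-- The labels of one piece form a finite set. -/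
lemma finite_labels (P : ι → Piece W) (j : ι) : {x : ι × W.K | x.1 = j ∧ IsLabel P x}.Finite := by
  have h1 := Module.End.finite_hasEigenvalue (W.map (P j).f).toLinearMap
  refine (h1.image (fun α => (j, α))).subset ?_
  rintro ⟨j', α⟩ ⟨hj, hx⟩
  obtain rfl : j' = j := hj
  obtain ⟨v, -, hv, hα⟩ := hx
  refine ⟨α, ?_, rfl⟩
  exact Module.End.hasEigenvalue_of_hasEigenvector
    (Module.End.hasEigenvector_iff.2 ⟨Module.End.mem_eigenspace_iff.2 hα, hv⟩)

lemma bad_sum {T : Finset (Multiset (ι × W.K))} (hT : T.Nonempty) (h : ∀ s ∈ T, Bad P s) :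
    Bad P (∑ s ∈ T, s) :=
  Finset.sum_induction_nonempty (fun s => s) (Bad P) (fun _ _ => Bad.add) hT h

/-- From a bad multiset of labels one obtains one which is stable under all conjugations. -/
theorem exists_stable {κ : Type w'} (S : κ → Conjugation W)
    (hS : ∀ i j, ∀ v ∈ (P j).V, (S i).σ (P j).X v ∈ (P j).V)
    {s₀ : Multiset (ι × W.K)} (h₀ : Bad P s₀) :
    ∃ s, Bad P s ∧ ∀ i, s.map (conjLabel (S i).τ) = s := by
  classical
  -- the finite set of all labels which occur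
  have hfin : {x : ι × W.K | x.1 ∈ (s₀.map Prod.fst).toFinset ∧ IsLabel P x}.Finite := by
    have h1 : {x : ι × W.K | x.1 ∈ (s₀.map Prod.fst).toFinset ∧ IsLabel P x} =
        ⋃ j ∈ (s₀.map Prod.fst).toFinset, {x : ι × W.K | x.1 = j ∧ IsLabel P x} := by
      ext x
      simp
    rw [h1]
    exact Set.Finite.biUnion (Finset.finite_toSet _) (fun j _ => finite_labels P j)
  set F := hfin.toFinset with hF
  have hFin : {s : Multiset (ι × W.K) | Bad P s ∧ Multiset.card s = Multiset.card s₀ ∧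
      ∀ x ∈ s, x.1 ∈ (s₀.map Prod.fst).toFinset}.Finite := by
    refine (Set.finite_Iic (Multiset.card s₀ • F.val)).subset ?_
    rintro s ⟨h1, h2, h3⟩
    rw [Set.mem_Iic, Multiset.le_iff_count]
    intro x
    rw [Multiset.count_nsmul]
    by_cases hx : x ∈ s
    · have h4 : x ∈ F := hfin.mem_toFinset.2 ⟨h3 x hx, h1.isLabel x hx⟩
      rw [Multiset.count_eq_one_of_mem F.nodup h4, mul_one, ← h2]
      exact Multiset.count_le_card x s
    · rw [Multiset.count_eq_zero_of_notMem hx]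
      exact Nat.zero_le _
  set T := hFin.toFinset with hT
  have hmem : ∀ s, s ∈ T ↔ Bad P s ∧ Multiset.card s = Multiset.card s₀ ∧
      ∀ x ∈ s, x.1 ∈ (s₀.map Prod.fst).toFinset := fun s => hFin.mem_toFinset
  have hne : T.Nonempty := by
    refine ⟨s₀, (hmem _).2 ⟨h₀, rfl, fun x hx => ?_⟩⟩
    rw [Multiset.mem_toFinset]
    exact Multiset.mem_map_of_mem _ hx
  refine ⟨∑ s ∈ T, s, bad_sum hne fun s hs => ((hmem s).1 hs).1, fun i => ?_⟩
  have hinj : Function.Injective (Multiset.map (conjLabel (ι := ι) (S i).τ)) := by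
    apply Multiset.map_injective
    rintro ⟨j, α⟩ ⟨j', α'⟩ h
    simp only [conjLabel, Prod.mk.injEq] at h
    rw [h.1, (S i).τ.injective h.2]
  have hsub : T.image (Multiset.map (conjLabel (S i).τ)) ⊆ T := by
    intro s hs
    obtain ⟨t, ht, rfl⟩ := Finset.mem_image.1 hs
    obtain ⟨h1, h2, h3⟩ := (hmem t).1 ht
    refine (hmem _).2 ⟨h1.conj (S i) (hS i), by rw [Multiset.card_map, h2], fun x hx => ?_⟩
    obtain ⟨y, hy, rfl⟩ := Multiset.mem_map.1 hx
    exact h3 y hy
  have heq : T.image (Multiset.map (conjLabel (S i).τ)) = T :=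
    Finset.eq_of_subset_of_card_le hsub (by rw [Finset.card_image_of_injective _ hinj])
  have h1 : (∑ s ∈ T, s).map (conjLabel (S i).τ) = ∑ s ∈ T, s.map (conjLabel (S i).τ) :=
    map_sum (Multiset.mapAddMonoidHom (conjLabel (ι := ι) (S i).τ)) (fun s => s) T
  rw [h1]
  conv_rhs => rw [← heq]
  rw [Finset.sum_image (fun _ _ _ _ h => hinj h)]

/-- **Conjecture `D` from the rational relations.** -/
theorem main (hP : IsFrobeniusFamily P q) {κ : Type w'} (S : κ → Conjugation W)
    (hS : ∀ i, StableUnder P (S i))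
    (hd : ∀ x, IsLabel P x → AlgebraicRelation P q {x, dualLabel P q x})
    (hr : ∀ s, RationalRelation P S q s → ∃ m ≥ 1, InAlgebraicGroup P q (m • s))
    {Y : 𝒱.Obj} (hY : IsGenerated P Y) : HomEqNum W Y := by
  have H : Hyp P q := ⟨hP.pos, hP.pol⟩
  apply homEqNum_of_numZ
  intro x hx
  by_contra h0
  obtain ⟨s₀, h₀⟩ := exists_bad H (fun x hx => (hd x hx).2.1) hY hx h0
  obtain ⟨s, hs, hst⟩ := exists_stable S hS h₀
  obtain ⟨m, hm, t, t', htt, ht⟩ := hr s ⟨hs.isLabel, hs.tateRelation H hP.frob, hst⟩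
  have h1 := (hs.nsmul hm).add_alg H t fun r hr =>
    ⟨(ht r (Multiset.mem_add.2 (Or.inl hr))).1, (ht r (Multiset.mem_add.2 (Or.inl hr))).2.1⟩
  rw [htt] at h1
  exact not_bad H t' (fun r hr => (ht r (Multiset.mem_add.2 (Or.inr hr))).2.2) h1

end Pool.Agent.W536.RR
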