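import Pool.Agent.W536.RBase

/-!
# Monomials in eigenvectors
-/

open CategoryTheory AlgebraicGeometry

universe u v w

namespace Pool.Agent.W536.RR

open Pool.Agent.H914 Pool.Agent.H914.VarClass Pool.Agent.H914.VarClass.Obj
  Pool.Agent.H914.WeilCohomology Pool.Agent.H281R3.HT

variable {k : Type u} [Field k] {𝒱 : VarClass k} {ops : CycleOps 𝒱}
  {W : WeilCohomology.{u, v} ops} {X Y Z : 𝒱.Obj} {ι : Type w} {P : ι → Piece W}

/-- The element is homogeneous. -/
def Homog (a : W.H Y) : Prop := ∃ i, a ∈ W.gr Y i

lemma Homog.comm {a b : W.H Y} (ha : Homog a) (hb : Homog b) :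
    a * b = b * a ∨ a * b = -(b * a) := by
  obtain ⟨i, hi⟩ := ha
  obtain ⟨j, hj⟩ := hb
  rw [W.comm hi hj]
  rcases Nat.even_or_odd (i * j) with h | h
  · left; rw [h.neg_one_pow, one_smul]
  · right; rw [h.neg_one_pow, neg_smul, one_smul]

lemma Homog.mul {a b : W.H Y} (ha : Homog a) (hb : Homog b) : Homog (a * b) := by
  obtain ⟨i, hi⟩ := ha
  obtain ⟨j, hj⟩ := hb
  exact ⟨i + j, W.mul_mem hi hj⟩

lemma homog_one : Homog (1 : W.H Y) := ⟨0, W.one_mem Y⟩

lemma homog_prod {l : List (W.H Y)} (h : ∀ a ∈ l, Homog a) : Homog l.prod := by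
  induction l with
  | nil => exact homog_one
  | cons a l ih =>
    rw [List.prod_cons]
    exact (h a List.mem_cons_self).mul (ih fun b hb => h b (List.mem_cons_of_mem _ hb))

/-- Products of permuted homogeneous elements agree up to sign. -/
lemma perm_prod {l l' : List (W.H Y)} (h : l.Perm l') (hl : ∀ a ∈ l, Homog a) :
    l.prod = l'.prod ∨ l.prod = -l'.prod := by
  induction h with
  | nil => left; rfl
  | cons a h ih =>
    rw [List.prod_cons, List.prod_cons]
    rcases ih fun b hb => hl b (List.mem_cons_of_mem _ hb) with h1 | h1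
    · left; rw [h1]
    · right; rw [h1, mul_neg]
  | swap a b l =>
    simp only [List.prod_cons, ← mul_assoc]
    rcases (hl b List.mem_cons_self).comm (hl a (List.mem_cons_of_mem _ List.mem_cons_self))
      with h1 | h1
    · left; rw [h1]
    · right; rw [h1, neg_mul]
  | trans h1 h2 ih1 ih2 =>
    rcases ih1 hl with e1 | e1 <;> rcases ih2 (fun b hb => hl b (h1.mem_iff.2 hb)) with e2 | e2
    · left; rw [e1, e2]
    · right; rw [e1, e2]
    · right; rw [e1, e2]
    · left; rw [e1, e2, neg_neg]

/-- The product of two products is, up to sign, the product of the products. -/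
lemma mul_prod_prod {A : Type*} (l : List A) (a b : A → W.H Y) (ha : ∀ c, Homog (a c))
    (hb : ∀ c, Homog (b c)) :
    (l.map a).prod * (l.map b).prod = (l.map fun c => a c * b c).prod ∨
      (l.map a).prod * (l.map b).prod = -(l.map fun c => a c * b c).prod := by
  induction l with
  | nil => left; simp
  | cons c l ih =>
    simp only [List.map_cons, List.prod_cons]
    have h1 : Homog (l.map a).prod := homog_prod (by
      intro x hx
      obtain ⟨y, -, rfl⟩ := List.mem_map.1 hx
      exact ha y)
    have e1 : a c * (l.map a).prod * (b c * (l.map b).prod) =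
        a c * ((l.map a).prod * b c) * (l.map b).prod := by simp only [mul_assoc]
    have e2 : a c * (b c * (l.map a).prod) * (l.map b).prod =
        a c * b c * ((l.map a).prod * (l.map b).prod) := by simp only [mul_assoc]
    rw [e1]
    rcases h1.comm (hb c) with h2 | h2 <;> rcases ih with h3 | h3
    · left; rw [h2, e2, h3]
    · right; rw [h2, e2, h3, mul_neg]
    · right; rw [h2, mul_neg, neg_mul, e2, h3]
    · left; rw [h2, mul_neg, neg_mul, e2, h3, mul_neg, neg_neg]

/-- The composite of a coordinate with a morphism. -/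
def Coordinate.comp (h : X ⟶ Y) (c : Coordinate P Y) : Coordinate P X := ⟨c.x, h ≫ c.g⟩

lemma Coordinate.comp_ev (h : X ⟶ Y) (c : Coordinate P Y) : (c.comp h).ev = W.map h c.ev := by
  rw [Coordinate.ev, Coordinate.ev, ← W.map_comp]
  rfl

lemma Coordinate.comp_label (h : X ⟶ Y) (c : Coordinate P Y) : (c.comp h).label = c.label := rfl

lemma map_comp_label (h : X ⟶ Y) (l : List (Coordinate P Y)) :
    (l.map (Coordinate.comp h)).map Coordinate.label = l.map Coordinate.label := by
  rw [List.map_map]
  rfl

lemma map_comp_ev (h : X ⟶ Y) (l : List (Coordinate P Y)) :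
    ((l.map (Coordinate.comp h)).map Coordinate.ev).prod =
      W.map h (l.map Coordinate.ev).prod := by
  rw [List.map_map, map_list_prod, List.map_map]
  congr 1
  apply List.map_congr_left
  intro c _
  exact c.comp_ev h

/-- Splitting of a list according to a decomposition of its labels. -/
lemma exists_split {A B : Type*} (f : A → B) (r : Multiset B) :
    ∀ (s : Multiset B) (l : List A), ((l.map f : List B) : Multiset B) = r + s →
      ∃ l₁ l₂ : List A, l.Perm (l₁ ++ l₂) ∧ ((l₁.map f : List B) : Multiset B) = r ∧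
        ((l₂.map f : List B) : Multiset B) = s := by
  classical
  induction r using Multiset.induction_on with
  | empty =>
    intro s l h
    refine ⟨[], l, by simp, by simp, by rw [h, zero_add]⟩
  | cons b r ih =>
    intro s l h
    rw [Multiset.cons_add] at h
    have h1 : (l : Multiset A).map f = b ::ₘ (r + s) := by rw [← h]; rfl
    rw [← Multiset.map_eq_cons] at h1
    obtain ⟨a, ha, hab, h2⟩ := h1
    have ha' : a ∈ l := ha
    obtain ⟨l₁, l₂, h3, h4, h5⟩ := ih s (l.erase a) (by rw [← h2]; rfl)
    refine ⟨a :: l₁, l₂, ?_, ?_, h5⟩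
    · exact (List.perm_cons_erase ha').trans (List.Perm.cons a h3)
    · rw [List.map_cons, ← Multiset.cons_coe, h4, hab]

/-- The hypotheses on the pieces. -/
structure Hyp (P : ι → Piece W) (q : ℕ) : Prop where
  hq : q ≠ 0
  pol : ∀ j, (P j).IsPolarized q

lemma EigenVec.mem (x : EigenVec P) : x.v ∈ (P x.j).V := x.prop.mem
lemma EigenVec.ne (x : EigenVec P) : x.v ≠ 0 := x.prop.ne
lemma EigenVec.eig (x : EigenVec P) : W.map (P x.j).f x.v = x.α • x.v := x.prop.eig

lemma Piece.IsPolarized.deg {P : Piece W} {q : ℕ} (h : P.IsPolarized q) :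
    P.V ≤ W.gr P.X P.d := h.2.deg
lemma Piece.IsPolarized.eigen {P : Piece W} {q : ℕ} (h : P.IsPolarized q) :
    P.V ≤ Submodule.span W.K {v | v ∈ P.V ∧ ∃ α : W.K, W.map P.f v = α • v} := h.2.eigen
lemma Piece.IsPolarized.degree {P : Piece W} {q : ℕ} (h : P.IsPolarized q) :
    ∀ a, W.tr P.X (W.map P.f a) = (q : W.K) ^ P.X.dim * W.tr P.X a := h.2.degree
lemma Piece.IsPolarized.codim {P : Piece W} {q : ℕ} (h : P.IsPolarized q) :
    ∃ c, c + P.d = P.X.dim ∧ P.X.IsCyc c P.z ∧
    W.map P.f (W.cl P.X P.z) = (q : W.K) ^ c • W.cl P.X P.z :=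
  ⟨P.X.dim - P.d, Nat.sub_add_cancel h.2.le, h.1, h.2.cyc⟩
lemma Piece.IsPolarized.nondeg {P : Piece W} {q : ℕ} (h : P.IsPolarized q) :
    ∀ v ∈ P.V, v ≠ 0 → ∃ w ∈ P.V, W.tr P.X (v * w * W.cl P.X P.z) ≠ 0 := h.2.nondeg

lemma EigenVec.mem_gr (hP : ∀ j, (P j).V ≤ W.gr (P j).X (P j).d) (x : EigenVec P) :
    x.v ∈ W.gr (P x.j).X (P x.j).d := hP x.j x.mem

lemma Coordinate.ev_mem (hP : ∀ j, (P j).V ≤ W.gr (P j).X (P j).d) (c : Coordinate P Y) :
    c.ev ∈ W.gr Y (P c.x.j).d := W.map_mem _ (c.x.mem_gr hP)

lemma Coordinate.homog (hP : ∀ j, (P j).V ≤ W.gr (P j).X (P j).d) (c : Coordinate P Y) :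
    Homog c.ev := ⟨_, c.ev_mem hP⟩

/-- **Products of algebraic relations.** -/
lemma prod_mem_algSpan (hP : ∀ j, (P j).V ≤ W.gr (P j).X (P j).d)
    (t : Multiset (Multiset (ι × W.K))) (ht : ∀ r ∈ t, AlgebraicMonomials P r) :
    ∀ l : List (Coordinate P Y),
      ((l.map Coordinate.label : List (ι × W.K)) : Multiset (ι × W.K)) = t.sum →
      (l.map Coordinate.ev).prod ∈ algSpan W Y := by
  induction t using Multiset.induction_on with
  | empty =>
    intro l hl
    rw [Multiset.sum_zero] at hl
    have : l = [] := by simpa using hl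
    rw [this]
    exact one_mem_algSpan
  | cons r t ih =>
    intro l hl
    rw [Multiset.sum_cons] at hl
    obtain ⟨l₁, l₂, h1, h2, h3⟩ := exists_split Coordinate.label r t.sum l hl
    have h4 := ht r (Multiset.mem_cons_self r t) Y l₁ h2
    have h5 := ih (fun r' hr' => ht r' (Multiset.mem_cons_of_mem hr')) l₂ h3
    have h6 := algSpan_mul h4 h5
    rw [← List.prod_append, ← List.map_append] at h6
    rcases perm_prod (h1.map Coordinate.ev) (by
      intro a ha
      obtain ⟨c, -, rfl⟩ := List.mem_map.1 ha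
      exact c.homog hP) with h7 | h7
    · rw [h7]; exact h6
    · rw [h7]; exact Submodule.neg_mem _ h6

/-- The external products of eigenvectors on iterated products of the varieties of the pieces. -/
inductive Full (P : ι → Piece W) : (Y : 𝒱.Obj) → (Y ⟶ Y) → List (Coordinate P Y) → Prop
  | base (x : EigenVec P) : Full P (P x.j).X (P x.j).f [⟨x, 𝟙 _⟩]
  | prod {Y Z : 𝒱.Obj} {F : Y ⟶ Y} {G : Z ⟶ Z} {l : List (Coordinate P Y)}
      {l' : List (Coordinate P Z)} : Full P Y F l → Full P Z G l' →
      Full P (Y.prod Z) (Obj.lift (fst Y Z ≫ F) (snd Y Z ≫ G))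
        (l.map (Coordinate.comp (fst Y Z)) ++ l'.map (Coordinate.comp (snd Y Z)))

lemma Full.isProductEndo {F : Y ⟶ Y} {l : List (Coordinate P Y)} (h : Full P Y F l) :
    IsProductEndo P Y F := by
  induction h with
  | base x => exact IsProductEndo.base x.j
  | prod _ _ h1 h2 => exact IsProductEndo.prod h1 h2

lemma Full.equivariant {F : Y ⟶ Y} {l : List (Coordinate P Y)} (h : Full P Y F l) :
    ∀ c ∈ l, F ≫ c.g = c.g ≫ (P c.x.j).f := by
  induction h with
  | base x =>
    intro c hc
    rw [List.mem_singleton] at hc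
    subst hc
    exact (Category.comp_id _).trans (Category.id_comp _).symm
  | @prod Y Z F G l l' _ _ h1 h2 =>
    intro c hc
    rw [List.mem_append, List.mem_map, List.mem_map] at hc
    rcases hc with ⟨c, hc, rfl⟩ | ⟨c, hc, rfl⟩
    · have e1 : Obj.lift (fst Y Z ≫ F) (snd Y Z ≫ G) ≫ fst Y Z ≫ c.g =
          (fst Y Z ≫ c.g) ≫ (P c.x.j).f := by
        rw [← Category.assoc, Obj.lift_fst, Category.assoc, Category.assoc, h1 c hc]
      exact e1
    · have e1 : Obj.lift (fst Y Z ≫ F) (snd Y Z ≫ G) ≫ snd Y Z ≫ c.g =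
          (snd Y Z ≫ c.g) ≫ (P c.x.j).f := by
        rw [← Category.assoc, Obj.lift_snd, Category.assoc, Category.assoc, h2 c hc]
      exact e1

/-- The orientation of an external product. -/
lemma Full.tr {F : Y ⟶ Y} {l : List (Coordinate P Y)} (h : Full P Y F l)
    (φ : ∀ x : EigenVec P, W.H (P x.j).X) :
    W.tr Y (l.map fun c => W.map c.g (φ c.x)).prod =
      (l.map fun c => W.tr (P c.x.j).X (φ c.x)).prod := by
  induction h with
  | base x =>
    simp only [List.map_cons, List.map_nil, List.prod_cons, List.prod_nil, mul_one]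
    rw [W.map_id]
  | @prod Y Z F G l l' _ _ h1 h2 =>
    rw [List.map_append, List.prod_append, List.map_append, List.prod_append]
    have e1 : ((l.map (Coordinate.comp (fst Y Z))).map fun c => W.map c.g (φ c.x)).prod =
        W.map (fst Y Z) (l.map fun c => W.map c.g (φ c.x)).prod := by
      rw [List.map_map, map_list_prod, List.map_map]
      congr 1
      apply List.map_congr_left
      intro c _
      exact W.map_comp _ _ _
    have e2 : ((l'.map (Coordinate.comp (snd Y Z))).map fun c => W.map c.g (φ c.x)).prod =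
        W.map (snd Y Z) (l'.map fun c => W.map c.g (φ c.x)).prod := by
      rw [List.map_map, map_list_prod, List.map_map]
      congr 1
      apply List.map_congr_left
      intro c _
      exact W.map_comp _ _ _
    rw [e1, e2, W.tr_prod, h1, h2, List.map_map, List.map_map]
    rfl

/-- There are external products of any eigenvectors. -/
lemma exists_full (x : EigenVec P) (l : List (EigenVec P)) :
    ∃ (Y : 𝒱.Obj) (F : Y ⟶ Y) (L : List (Coordinate P Y)), Full P Y F L ∧
      L.map Coordinate.x = x :: l := by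
  induction l generalizing x with
  | nil => exact ⟨_, _, _, Full.base x, rfl⟩
  | cons y l ih =>
    obtain ⟨Y, F, L, h, hL⟩ := ih y
    refine ⟨_, _, _, Full.prod (Full.base x) h, ?_⟩
    rw [List.map_append, List.map_map, List.map_map]
    change x :: L.map Coordinate.x = _
    rw [hL]

lemma Full.ne_nil {F : Y ⟶ Y} {l : List (Coordinate P Y)} (h : Full P Y F l) : l ≠ [] := by
  induction h with
  | base x => exact List.cons_ne_nil _ _
  | prod _ _ h1 _ =>
    intro h0
    rw [List.append_eq_nil_iff] at h0
    apply h1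
    simpa using h0.1

/-- The Frobenius endomorphism on an external product of eigenvectors. -/
lemma Full.frob {F : Y ⟶ Y} {l : List (Coordinate P Y)} (h : Full P Y F l) :
    W.map F (l.map Coordinate.ev).prod =
      ((l.map Coordinate.label).map Prod.snd).prod • (l.map Coordinate.ev).prod := by
  have key : ∀ l : List (Coordinate P Y), (∀ c ∈ l, F ≫ c.g = c.g ≫ (P c.x.j).f) →
      W.map F (l.map Coordinate.ev).prod =
        ((l.map Coordinate.label).map Prod.snd).prod • (l.map Coordinate.ev).prod := by
    intro l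
    induction l with
    | nil => intro _; simp
    | cons c l ih =>
      intro hl
      have h1 := ih fun c' hc' => hl c' (List.mem_cons_of_mem _ hc')
      have h2 := hl c List.mem_cons_self
      have h3 : W.map F c.ev = c.x.α • c.ev := by
        rw [Coordinate.ev, ← W.map_comp, h2, W.map_comp, c.x.eig, map_smul]
      simp only [List.map_cons, List.prod_cons]
      rw [map_mul, h1, h3, smul_mul_smul_comm]
      rfl
  exact key l h.equivariant

lemma prod_ev_mem (hP : ∀ j, (P j).V ≤ W.gr (P j).X (P j).d) (l : List (Coordinate P Y)) :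
    (l.map Coordinate.ev).prod ∈
      W.gr Y ((l.map Coordinate.label).map fun x => (P x.1).d).sum := by
  induction l with
  | nil => exact W.one_mem Y
  | cons c l ih =>
    simp only [List.map_cons, List.prod_cons, List.sum_cons]
    exact W.mul_mem (c.ev_mem hP) ih

end Pool.Agent.W536.RR
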